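import Pool.Agent.H33.G.R_seed8.H499R2.CL.Defs

/-! Project CL, task A: transitions. -/

set_option autoImplicit false

namespace Pool.Agent.H499R2.ND

open Pool.Agent.H320R2.PD Finset Filter Topology

theorem a_FC_iter {R : Set ℤ} (hR : FC R) {y : ℤ} (hy : y ∈ R) (i : ℕ) : (Td 1)^[i] y ∈ R := by
  induction i with
  | zero => exact hy
  | succ i ih => rw [Function.iterate_succ_apply']; exact hR _ ih

theorem a_Vw_pos {w : List ℕ} {M x : ℤ} (hM0 : 0 < M) (h : Vw 1 w M x) : 0 < x := by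
  unfold Vw at h
  by_contra hx
  push Not at hx
  have h1 : (0 : ℤ) < 3 ^ w.length * M := by positivity
  have h2 : (0 : ℤ) ≤ 1 * (Wo w : ℤ) := by positivity
  have h3 : (2 : ℤ) ^ w.sum * x ≤ 0 := mul_nonpos_of_nonneg_of_nonpos (by positivity) hx
  omega

theorem La_word {R : Set ℤ} (hR : FC R) {s : ℤ} {w : List ℕ} (hw : ∀ a ∈ w, 1 ≤ a) {M x : ℤ}
    (hM : Odd M) (hx : Odd x) (hM0 : 0 < M) (hMS : M ∈ La R s) (h : Vw 1 w M x) :
    x ∈ La R (s - w.sum) := by
  have hit := iter_word odd_one w hw M x hM hx h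
  obtain ⟨⟨_, k, hk⟩, hE⟩ := hMS
  have hx0 := a_Vw_pos hM0 h
  refine ⟨⟨hx0, ?_⟩, ?_⟩
  · rcases le_or_gt w.sum k with h1 | h1
    · refine ⟨k - w.sum, ?_⟩
      rw [← hit, ← Function.iterate_add_apply, Nat.sub_add_cancel h1]
      exact hk
    · refine ⟨0, ?_⟩
      have h2 := a_FC_iter hR hk (w.sum - k)
      rw [← Function.iterate_add_apply, Nat.sub_add_cancel h1.le, hit] at h2
      exact h2
  · rintro ⟨_, j, hj, hjR⟩
    apply hE
    refine ⟨hM0, j + w.sum, by rw [Nat.cast_add]; omega, ?_⟩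
    rw [Function.iterate_add_apply, hit]
    exact hjR

theorem Ea_word {R : Set ℤ} (hR : FC R) {s : ℤ} {w : List ℕ} (hw : ∀ a ∈ w, 1 ≤ a) {M x : ℤ}
    (hM : Odd M) (hx : Odd x) (hM0 : 0 < M) (hMS : M ∈ Ea R s) (h : Vw 1 w M x) :
    x ∈ Ea R (s - w.sum) ∪ R := by
  have hit := iter_word odd_one w hw M x hM hx h
  obtain ⟨_, k, hks, hk⟩ := hMS
  have hx0 := a_Vw_pos hM0 h
  rcases le_or_gt w.sum k with h1 | h1
  · left
    refine ⟨hx0, k - w.sum, by omega, ?_⟩
    rw [← hit, ← Function.iterate_add_apply, Nat.sub_add_cancel h1]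
    exact hk
  · right
    have h2 := a_FC_iter hR hk (w.sum - k)
    rw [← Function.iterate_add_apply, Nat.sub_add_cancel h1.le, hit] at h2
    exact h2

end Pool.Agent.H499R2.ND
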