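import Pool.Agent.H33.G.R_seed8.H499R2.CL.Defs

/-! Project CL, task C: error bounds with a flexible length, next scale. -/

set_option autoImplicit false

namespace Pool.Agent.H499R2.ND

open Pool.Agent.H320R2.PD Finset Filter Topology

open Pool.Agent.H319R2.Lln (mu)

theorem err_flex (B : ℕ) (d : ℤ) : ∃ C : ℝ, 0 < C ∧ ∀ A : ℝ, 0 < A → 1000 ≤ Real.log A → ∀ k m m' : ℕ,
    (m : ℝ) ^ 2 ≤ Real.log A → 2 / 5 * Real.log A ≤ k → (k : ℝ) ≤ Real.log A / 2 →
    m' = ⌊Real.sqrt (0.8 * Real.log A)⌋₊ → Err d A k m m' ≤ C / (Real.log A) ^ B := by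
  obtain ⟨Cm, hCm, hmix⟩ := mix (2 * B + 2)
  refine ⟨2 * (Cm * (2 ^ (2 * B + 2) + 4 ^ (2 * B + 2))) + 3 * (B.factorial * 32000 ^ B)
    + (|(d : ℝ)| + 3) * 2 * (B.factorial * 5 ^ B), by positivity, ?_⟩
  intro A hA ht k m m' hm hk2 hk1 hm'
  set t := Real.log A with htdef
  have htpos : 0 < t := by linarith
  have hexpA : Real.exp t = A := Real.exp_log hA
  have hkpos : (1 : ℝ) ≤ k := by linarith
  have hk1N : 1 ≤ k := by exact_mod_cast hkpos
  set r := Real.sqrt t with hr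
  have hrsq : r ^ 2 = t := Real.sq_sqrt htpos.le
  have hr30 : 30 ≤ r := by
    apply Real.le_sqrt_of_sq_le; linarith
  have hmr : (m : ℝ) ≤ r := Real.le_sqrt_of_sq_le hm
  have hs8 : Real.sqrt (0.8 * t) ≥ 0.8 * r := by
    apply Real.le_sqrt_of_sq_le
    rw [mul_pow, hrsq]; linarith
  have hs8' : Real.sqrt (0.8 * t) ≤ r := Real.sqrt_le_sqrt (by linarith)
  have hm'1 : r / 2 ≤ m' := by
    rw [hm']; linarith [Nat.lt_floor_add_one (Real.sqrt (0.8 * t))]
  have hm'2 : (m' : ℝ) ≤ r := by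
    rw [hm']; exact (Nat.floor_le (Real.sqrt_nonneg _)).trans hs8'
  have hm'pos : 1 ≤ m' := by
    have : (1 : ℝ) ≤ m' := by linarith
    exact_mod_cast this
  have hm'k : m' ≤ k := by
    have : (m' : ℝ) ≤ k := by nlinarith
    exact_mod_cast this
  -- exponentially small quantities
  have hexp5 := exp_neg_le B (by norm_num : (0 : ℝ) < 5) htpos
  have hexpb := exp_neg_le B (by norm_num : (0 : ℝ) < 32000) htpos
  have hsmall : (2 : ℝ) ^ (41 * k / 20) * (2 * 3 ^ m / A) ≤ 2 * Real.exp (-(t / 5)) := by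
    have h1 := pow_tm_le htpos.le hk1
    have h2 := pow_m_le ht hm
    have h3 : (2 : ℝ) ^ (41 * k / 20) * (2 * 3 ^ m / A)
        ≤ Real.exp (0.7106 * t) * (2 * Real.exp (0.05 * t) / Real.exp t) := by
      rw [← hexpA]
      apply mul_le_mul h1 _ (by positivity) (Real.exp_pos _).le
      apply div_le_div_of_nonneg_right _ (Real.exp_pos _).le
      linarith
    have h4 : Real.exp (0.7106 * t) * (2 * Real.exp (0.05 * t) / Real.exp t)
        = 2 * Real.exp (0.7106 * t + 0.05 * t - t) := by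
      rw [Real.exp_sub, Real.exp_add]; ring
    rw [h4] at h3
    refine h3.trans ?_
    apply mul_le_mul_of_nonneg_left _ (by norm_num)
    apply Real.exp_le_exp.2
    linarith
  have hexpsmall : Real.exp (-(t / 5)) ≤ 1 / 2 := by
    have h1 := Real.add_one_le_exp (t / 5)
    rw [Real.exp_neg, inv_eq_one_div]
    apply one_div_le_one_div_of_le (by norm_num)
    linarith
  have hsmall1 : (2 : ℝ) ^ (41 * k / 20) * (2 * 3 ^ m / A) ≤ 1 := by linarith
  have h3mA : 0 ≤ (2 * 3 ^ m / A : ℝ) := by positivity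
  have hone : (2 * 3 ^ m / A : ℝ) ≤ 2 * Real.exp (-(t / 5)) := by
    have : (1 : ℝ) ≤ 2 ^ (41 * k / 20) := one_le_pow₀ (by norm_num)
    nlinarith
  -- mixing
  have hδ := hmix k m m' (3 * k) hk1N hm'pos hm'k (le_refl _)
  set δ := ∑ T ∈ range (k * (3 * k) + 1), dev (FWT (3 * k) k T) wwt (fun w => (Wo w : ℤ)) (k + m) m'
    with hδdef
  have hδnn : 0 ≤ δ := sum_nonneg fun _ _ => sum_nonneg fun _ _ => abs_nonneg _
  have hrpos : 0 < r := by linarith
  have hδ2 : δ ≤ (Cm * (2 ^ (2 * B + 2) + 4 ^ (2 * B + 2))) / t ^ B := by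
    have e1 : ((k : ℝ) + m) ≤ t := by nlinarith
    have e2 : (1 / (m' : ℝ)) ^ (2 * B + 2) ≤ (2 / r) ^ (2 * B + 2) := by
      apply pow_le_pow_left₀ (by positivity)
      rw [div_le_div_iff₀ (by exact_mod_cast hm'pos) hrpos]
      linarith
    have e3 : ((m : ℝ) / k) ^ (2 * B + 2) ≤ (4 / r) ^ (2 * B + 2) := by
      apply pow_le_pow_left₀ (by positivity)
      rw [div_le_div_iff₀ (by linarith) hrpos]
      nlinarith
    have e4 : t * (Cm * ((2 / r) ^ (2 * B + 2) + (4 / r) ^ (2 * B + 2)))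
        = (Cm * (2 ^ (2 * B + 2) + 4 ^ (2 * B + 2))) / t ^ B := by
      have : r ^ (2 * B + 2) = t * t ^ B := by
        rw [show 2 * B + 2 = 2 * (B + 1) by ring, pow_mul, hrsq, pow_succ]; ring
      rw [div_pow, div_pow, this]
      field_simp
    calc δ ≤ (k + m) * (Cm * ((1 / (m' : ℝ)) ^ (2 * B + 2) + ((m : ℝ) / k) ^ (2 * B + 2))) := hδ
      _ ≤ t * (Cm * ((2 / r) ^ (2 * B + 2) + (4 / r) ^ (2 * B + 2))) := by
          apply mul_le_mul e1 _ (by positivity) htpos.le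
          apply mul_le_mul_of_nonneg_left _ hCm.le
          linarith
      _ = _ := e4
  -- mass
  have hmass := mass_GW k
  have hmass2 : 3 * Real.exp (-(k / 12800 : ℝ)) ≤ 3 * Real.exp (-(t / 32000)) := by
    have h1 : Real.exp (-(k / 12800 : ℝ)) ≤ Real.exp (-(t / 32000)) := by
      apply Real.exp_le_exp.2
      linarith
    linarith
  unfold Err
  rw [← hδdef]
  have hd0 : 0 ≤ |(d : ℝ)| := abs_nonneg _
  have f1 : (1 + 2 ^ (41 * k / 20) * (2 * 3 ^ m / A)) * δ ≤ 2 * δ :=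
    mul_le_mul_of_nonneg_right (by linarith) hδnn
  have f2 : (1 + (|(d : ℝ)| + 2) * 2 ^ (41 * k / 20)) * (2 * 3 ^ m / A)
      ≤ (|(d : ℝ)| + 3) * (2 * Real.exp (-(t / 5))) := by
    calc (1 + (|(d : ℝ)| + 2) * 2 ^ (41 * k / 20)) * (2 * 3 ^ m / A)
        = (2 * 3 ^ m / A) + (|(d : ℝ)| + 2) * (2 ^ (41 * k / 20) * (2 * 3 ^ m / A)) := by ring
      _ ≤ 2 * Real.exp (-(t / 5)) + (|(d : ℝ)| + 2) * (2 * Real.exp (-(t / 5))) := by
          have := mul_le_mul_of_nonneg_left hsmall (by linarith : 0 ≤ |(d : ℝ)| + 2)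
          linarith
      _ = _ := by ring
  have f3 : (|(d : ℝ)| + 3) * (2 * Real.exp (-(t / 5)))
      ≤ (|(d : ℝ)| + 3) * (2 * ((B.factorial * 5 ^ B) / t ^ B)) := by
    apply mul_le_mul_of_nonneg_left _ (by linarith)
    linarith
  have f4 : 3 * Real.exp (-(t / 32000)) ≤ 3 * ((B.factorial * 32000 ^ B) / t ^ B) := by linarith
  calc (1 + 2 ^ (41 * k / 20) * (2 * 3 ^ m / A)) * δ
      + (1 - ∑ w ∈ GW (3 * k) k ((39 * k + 19) / 20) (41 * k / 20), wwt w)
      + (1 + (|(d : ℝ)| + 2) * 2 ^ (41 * k / 20)) * (2 * 3 ^ m / A)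
      ≤ 2 * ((Cm * (2 ^ (2 * B + 2) + 4 ^ (2 * B + 2))) / t ^ B)
        + 3 * ((B.factorial * 32000 ^ B) / t ^ B)
        + (|(d : ℝ)| + 3) * (2 * ((B.factorial * 5 ^ B) / t ^ B)) := by
        linarith
    _ = _ := by ring


theorem log3_le_C : Real.log 3 ≤ 65 / 41 * Real.log 2 := by
  have h : Real.log ((3 : ℝ) ^ 41) ≤ Real.log ((2 : ℝ) ^ 65) :=
    Real.log_le_log (by norm_num) (by norm_num)
  rw [Real.log_pow, Real.log_pow] at h
  push_cast at h
  linarith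

theorem next_flex {A : ℝ} (hA : 0 < A) (ht : 1000 ≤ Real.log A) {k T : ℕ}
    (h1 : 2 / 5 * Real.log A ≤ k) (h2 : (k : ℝ) ≤ Real.log A / 2) (h3 : |(T : ℝ) - 2 * k| ≤ k / 20) :
    0.8 * Real.log A ≤ Real.log (A * 3 ^ k / 2 ^ T) ∧ Real.log (A * 3 ^ k / 2 ^ T) ≤ 0.9 * Real.log A ∧
      Real.log (A * 3 ^ k / 2 ^ T) / mu = Real.log A / mu - T - c0 * (T - 2 * k) := by
  have hlog : Real.log (A * 3 ^ k / 2 ^ T) = Real.log A - (T * Real.log 2 - k * Real.log 3) := by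
    rw [Real.log_div (by positivity) (by positivity), Real.log_mul (by positivity) (by positivity),
      Real.log_pow, Real.log_pow]
    ring
  have hl2 := Real.log_two_gt_d9
  have hl2' := Real.log_two_lt_d9
  have hl3 := log3_le_C
  have hl3' := log3_ge
  have hk0 : (0 : ℝ) ≤ k := Nat.cast_nonneg k
  obtain ⟨h4, h5⟩ := abs_le.1 h3
  have hT1 : 39 / 20 * (k : ℝ) ≤ T := by linarith
  have hT2 : (T : ℝ) ≤ 41 / 20 * k := by linarith
  have a1 : 39 / 20 * (k : ℝ) * Real.log 2 ≤ T * Real.log 2 :=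
    mul_le_mul_of_nonneg_right hT1 (by linarith)
  have a2 : (T : ℝ) * Real.log 2 ≤ 41 / 20 * k * Real.log 2 :=
    mul_le_mul_of_nonneg_right hT2 (by linarith)
  have a3 : (k : ℝ) * Real.log 3 ≤ k * (65 / 41 * Real.log 2) :=
    mul_le_mul_of_nonneg_left hl3 hk0
  have a4 : (k : ℝ) * (19 / 12 * Real.log 2) ≤ k * Real.log 3 :=
    mul_le_mul_of_nonneg_left hl3' hk0
  have a5 : (k : ℝ) * 0.6931471803 ≤ k * Real.log 2 := mul_le_mul_of_nonneg_left hl2.le hk0
  have a6 : (k : ℝ) * Real.log 2 ≤ k * 0.6931471808 := mul_le_mul_of_nonneg_left hl2'.le hk0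
  refine ⟨?_, ?_, ?_⟩
  · rw [hlog]
    nlinarith
  · rw [hlog]
    nlinarith
  · have hmu := Pool.Agent.H319R2.Lln.mu_eq
    have hmp := mu_pos'
    rw [hlog]
    unfold c0
    have e : (T : ℝ) * Real.log 2 - k * Real.log 3 = T * mu + Real.log 3 / 2 * (T - 2 * k) := by
      rw [hmu]; ring
    rw [e]
    field_simp
    ring

end Pool.Agent.H499R2.ND
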