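import Pool.Agent.H33.G.R_seed8.H499R2.NDLln3
import Pool.Agent.H33.G.R_seed8.H499R2.NDEqui
import Pool.Agent.H33.G.R_seed8.H499R2.NDG2
import Mathlib.Probability.Distributions.Gaussian.Real

/-! Project CL: central limit theorem for the `3x+1` map. Definitions. -/

set_option autoImplicit false

namespace Pool.Agent.H499R2.ND

open Pool.Agent.H320R2.PD Finset Filter Topology

open Pool.Agent.H319R2.Lln (mu)

/-- forward closed sets of integers -/
def FC (R : Set ℤ) : Prop := ∀ x ∈ R, Td 1 x ∈ R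

/-- positive integers whose trajectory meets `R` -/
def Me (R : Set ℤ) : Set ℤ := {x : ℤ | 0 < x ∧ ∃ k : ℕ, (Td 1)^[k] x ∈ R}

/-- positive integers whose trajectory meets `R` within `s` steps (`s` may be negative) -/
def Ea (R : Set ℤ) (s : ℤ) : Set ℤ := {x : ℤ | 0 < x ∧ ∃ k : ℕ, (k : ℤ) ≤ s ∧ (Td 1)^[k] x ∈ R}

/-- positive integers whose trajectory meets `R`, but not within `s` steps -/
def La (R : Set ℤ) (s : ℤ) : Set ℤ := {x : ℤ | x ∈ Me R ∧ x ∉ Ea R s}

/-- the constant of the fluctuations -/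
noncomputable def c0 : ℝ := Real.log 3 / (2 * mu)

/-- the standard deviation of the hitting times -/
noncomputable def sg : ℝ := c0 / Real.sqrt mu

/-- sparse sets: `R` contains at most `C / log A` of every class mod `3^m`, `m^2 ≤ log A`,
of odd integers of `[A,2A)` -/
def Sp (R : Set ℤ) : Prop := ∃ C : ℝ, 0 ≤ C ∧ ∀ A : ℝ, 0 < A → 1 ≤ Real.log A → ∀ m : ℕ,
  (m : ℝ) ^ 2 ≤ Real.log A → PB R A m (C / Real.log A)

/-- the standard normal distribution function -/
noncomputable def Phi (x : ℝ) : ℝ := (ProbabilityTheory.gaussianReal 0 1).real (Set.Iic x)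

/-- half width of the window of sizes at the scale `L = log A`, for the top scale `L0` -/
noncomputable def wid (K L0 L : ℝ) : ℝ := min (K * Real.sqrt (Real.sqrt (L0 * L))) (L / 50)

/-- the scale `A` is good for the list `ks` of lengths -/
def Gd (P : ℝ → Prop) (N : ℕ) (A1 : ℝ) : List ℕ → ℝ → Prop
  | [], A => P A
  | k :: ks, A => A1 ≤ A ∧ 2 / 5 * Real.log A ≤ k ∧ (k : ℝ) ≤ Real.log A / 2 ∧
      ∀ T : ℕ, N * |(T : ℝ) - 2 * k| ≤ k → Gd P N A1 ks (A * 3 ^ k / 2 ^ T)

end Pool.Agent.H499R2.ND
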