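import Pool.Agent.H33.G.R_seed8.H499R2.CL.B
import Pool.Agent.H33.G.R_seed8.H499R2.CL.C
import Pool.Agent.H33.G.R_seed8.H499R2.CL.D
import Pool.Agent.H33.G.R_seed8.H499R2.CL.PBs

/-! Project CL, task F: all scales with windows. -/

set_option autoImplicit false

namespace Pool.Agent.H499R2.ND

open Pool.Agent.H320R2.PD Finset Filter Topology

open Pool.Agent.H319R2.Lln (mu)

theorem wid_pos {K L0 L : ℝ} (hK : 4 ≤ K) (hL : 0 < L) (hL0 : L ≤ L0) : 0 < wid K L0 L := by
  unfold wid
  apply lt_min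
  · have : 0 < L0 * L := by
      have : 0 < L0 := by linarith
      positivity
    have : 0 < Real.sqrt (Real.sqrt (L0 * L)) := Real.sqrt_pos.2 (Real.sqrt_pos.2 this)
    nlinarith
  · positivity

theorem exp_wid {K L0 L : ℝ} (hK : 4 ≤ K) (hL : 0 < L) (hL0 : L ≤ L0) {k : ℕ} (hk : (k : ℝ) ≤ L / 2)
    (hk0 : 1 ≤ k) : 3 * Real.exp (-(wid K L0 L ^ 2 / (32 * k)))
      ≤ 24 * Real.exp (-(K ^ 2 / 32)) * (L / L0) + 120000 / L := by
  have hk0R : (1 : ℝ) ≤ k := by exact_mod_cast hk0
  have hL0p : 0 < L0 := by linarith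
  have hE := Real.exp_pos (-(K ^ 2 / 32))
  rcases min_choice (K * Real.sqrt (Real.sqrt (L0 * L))) (L / 50) with h | h
  · -- first case
    have hw : wid K L0 L = K * Real.sqrt (Real.sqrt (L0 * L)) := h
    rw [hw]
    set v := Real.sqrt (L0 / L) with hv
    have hu1 : 1 ≤ L0 / L := by rw [le_div_iff₀ hL]; linarith
    have hv1 : 1 ≤ v := by
      rw [hv]; exact Real.le_sqrt_of_sq_le (by linarith)
    have hvsq : v ^ 2 = L0 / L := Real.sq_sqrt (by linarith)
    have hs : Real.sqrt (L0 * L) = v * L := by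
      rw [hv]
      have : L0 * L = L0 / L * L ^ 2 := by field_simp
      rw [this, Real.sqrt_mul (by positivity), Real.sqrt_sq hL.le]
    have h1 : (K * Real.sqrt (Real.sqrt (L0 * L))) ^ 2 = K ^ 2 * (v * L) := by
      rw [mul_pow, Real.sq_sqrt (Real.sqrt_nonneg _), hs]
    rw [h1]
    have h2 : K ^ 2 / 16 * v ≤ K ^ 2 * (v * L) / (32 * k) := by
      rw [le_div_iff₀ (by positivity)]
      have : K ^ 2 / 16 * v * (32 * k) = K ^ 2 * v * (2 * k) := by ring
      rw [this, mul_assoc (K ^ 2) v]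
      apply mul_le_mul_of_nonneg_left _ (by positivity)
      apply mul_le_mul_of_nonneg_left _ (by linarith)
      linarith
    have h3 : K ^ 2 / 32 + v / 2 ≤ K ^ 2 / 16 * v := by
      have g1 : 16 ≤ K ^ 2 := by nlinarith
      have g2 : 0 ≤ K ^ 2 / 32 * (v - 1) := mul_nonneg (by positivity) (by linarith)
      have g3 : 0 ≤ (K ^ 2 / 32 - 1 / 2) * v := mul_nonneg (by linarith) (by linarith)
      nlinarith
    have h4 : Real.exp (-(K ^ 2 * (v * L) / (32 * k))) ≤ Real.exp (-(K ^ 2 / 32)) * Real.exp (-(v / 2)) := by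
      rw [← Real.exp_add]
      apply Real.exp_le_exp.2
      linarith
    have h5 : Real.exp (-(v / 2)) ≤ 8 * (L / L0) := by
      have h6 : (v / 2) ^ 2 / 2 ≤ Real.exp (v / 2) := by
        have := Real.quadratic_le_exp_of_nonneg (show 0 ≤ v / 2 by linarith)
        linarith
      rw [Real.exp_neg, inv_eq_one_div]
      have h7 : 8 * (L / L0) = 1 / ((v / 2) ^ 2 / 2) := by
        rw [div_pow, hvsq]; field_simp; norm_num
      rw [h7]
      apply one_div_le_one_div_of_le (by positivity) h6
    have h8 : 0 ≤ 120000 / L := by positivity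
    have h9 := mul_le_mul_of_nonneg_left h5 hE.le
    nlinarith
  · have hw : wid K L0 L = L / 50 := h
    rw [hw]
    have h1 : L / 40000 ≤ (L / 50) ^ 2 / (32 * k) := by
      rw [le_div_iff₀ (by positivity)]
      nlinarith
    have h2 : Real.exp (-((L / 50) ^ 2 / (32 * k))) ≤ 40000 / L := by
      have h3 : Real.exp (-((L / 50) ^ 2 / (32 * k))) ≤ Real.exp (-(L / 40000)) :=
        Real.exp_le_exp.2 (by linarith)
      refine h3.trans ?_
      rw [Real.exp_neg, inv_eq_one_div]
      have h4 : L / 40000 ≤ Real.exp (L / 40000) := by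
        have := Real.add_one_le_exp (L / 40000); linarith
      calc 1 / Real.exp (L / 40000) ≤ 1 / (L / 40000) := one_div_le_one_div_of_le (by positivity) h4
        _ = 40000 / L := by rw [one_div_div]
    have h5 : 0 ≤ 24 * Real.exp (-(K ^ 2 / 32)) * (L / L0) := by positivity
    have h6 : 120000 / L = 3 * (40000 / L) := by ring
    rw [h6]
    linarith

/-- ALL SCALES with windows -/
theorem all_scalesW : ∃ C : ℝ, 0 < C ∧ ∀ K L0 y CQ : ℝ, 4 ≤ K → 0 ≤ CQ → 0 < y →
    1000 ≤ Real.log (y / 2) → ∀ (ι : Type) (S : ι → Set ℤ) (Q : Set ℤ) (ok : ι → ℝ → Prop)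
    (nxt : ι → ℕ → ι),
    (∀ τ A, 0 < A → ok τ A → A ≤ y / 2 → ∀ m : ℕ, PB (S τ) A m 0) →
    (∀ A, 0 < A → 800 ≤ Real.log A → ∀ m : ℕ, (m : ℝ) ^ 2 ≤ Real.log A → PB Q A m (CQ / Real.log A)) →
    (∀ τ A, 0 < A → ok τ A → y / 2 < A → Real.log A ≤ L0 → ∀ T : ℕ,
      |(T : ℝ) - 2 * ⌊Real.log A / 2⌋₊| ≤ wid K L0 (Real.log A) →
        ok (nxt τ T) (A * 3 ^ ⌊Real.log A / 2⌋₊ / 2 ^ T)) →
    (∀ τ, ∀ w : List ℕ, (∀ a ∈ w, 1 ≤ a) → ∀ M x : ℤ, Odd M → Odd x → 0 < M → M ∈ S τ → Vw 1 w M x →
      x ∈ S (nxt τ w.sum) ∪ Q) →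
    ∀ τ A, y / 2 < A → ok τ A → Real.log A ≤ L0 → ∀ m : ℕ, (m : ℝ) ^ 2 ≤ Real.log A →
      PB (S τ) A m (C * (1 + CQ) / Real.log (y / 2)
        + C * Real.exp (-(K ^ 2 / 32)) * (Real.log A / L0)) := by
  obtain ⟨C1, hC1, herr⟩ := err_flex 1 1
  refine ⟨20 * C1 + 2400000 + 240, by positivity, ?_⟩
  intro K L0 y CQ hK hCQ hy ht0 ι S Q ok nxt hbase hQ hok htr
  set t0 := Real.log (y / 2) with ht0def
  have ht0pos : 0 < t0 := by linarith
  set E := Real.exp (-(K ^ 2 / 32)) with hE
  have hE0 : 0 < E := Real.exp_pos _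
  set D := C1 + 120000 + 2 * CQ with hD
  have hD0 : 0 < D := by positivity
  have main : ∀ n : ℕ, ∀ τ A, y / 2 < A → ok τ A → Real.log A ≤ L0 → Real.log A ≤ t0 + n → ∀ m : ℕ,
      (m : ℝ) ^ 2 ≤ Real.log A →
        PB (S τ) A m (10 * D * (2 / t0 - 1 / Real.log A) + 240 * E * (Real.log A / L0)) := by
    intro n
    induction n with
    | zero =>
      intro τ A hyA _ _ hlog
      exfalso
      have : t0 < Real.log A := Real.log_lt_log (by positivity) hyA
      rw [Nat.cast_zero, add_zero] at hlog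
      linarith
    | succ n ih =>
      intro τ A hyA hokA hL0 hlog m hm
      have hA : 0 < A := lt_trans (by positivity) hyA
      have hok1 := hok τ A hA hokA hyA hL0
      set t := Real.log A with htdef
      have ht0t : t0 < t := Real.log_lt_log (by positivity) hyA
      have htpos : 0 < t := by linarith
      have ht1000 : 1000 ≤ t := by linarith
      have hL0pos : 0 < L0 := by linarith
      obtain ⟨k, hk⟩ : ∃ k : ℕ, k = ⌊t / 2⌋₊ := ⟨_, rfl⟩
      obtain ⟨m', hm'⟩ : ∃ m' : ℕ, m' = ⌊Real.sqrt (0.8 * t)⌋₊ := ⟨_, rfl⟩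
      rw [← hk] at hok1
      have hk1 : (k : ℝ) ≤ t / 2 := by rw [hk]; exact Nat.floor_le (by linarith)
      have hk2 : t / 2 - 1 ≤ k := by rw [hk]; linarith [Nat.lt_floor_add_one (t / 2)]
      have hk25 : 2 / 5 * t ≤ k := by linarith
      have hk1N : 1 ≤ k := by
        have : (1 : ℝ) ≤ k := by linarith
        exact_mod_cast this
      have hm'sq : (m' : ℝ) ^ 2 ≤ 0.8 * t := by
        have h1 : (m' : ℝ) ≤ Real.sqrt (0.8 * t) := by
          rw [hm']; exact Nat.floor_le (Real.sqrt_nonneg _)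
        calc (m' : ℝ) ^ 2 ≤ (Real.sqrt (0.8 * t)) ^ 2 :=
              pow_le_pow_left₀ (Nat.cast_nonneg _) h1 2
          _ = 0.8 * t := Real.sq_sqrt (by linarith)
      have hm'k : m' ≤ k := by
        have : (m' : ℝ) ≤ k := by
          have h0 : (0 : ℝ) ≤ m' := Nat.cast_nonneg _
          by_contra hcon
          push Not at hcon
          nlinarith
        exact_mod_cast this
      have hEr := herr A hA ht1000 k m m' hm hk25 hk1 hm'
      rw [← htdef, pow_one] at hEr
      have hw0 := wid_pos (K := K) (L0 := L0) (L := t) hK htpos hL0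
      have hwk : wid K L0 t ≤ k / 20 := by
        refine (min_le_right _ _).trans ?_
        linarith
      obtain ⟨Tl, Tm, hTm, hTT, hmass⟩ := mass_win hk1N hw0 hwk
      have hmass2 := exp_wid hK htpos hL0 hk1 hk1N
      set ρ9 := 10 * D * (2 / t0 - 1 / (0.9 * t)) + 240 * E * (0.9 * t / L0) with hρ9
      have hρ90 : 0 ≤ ρ9 := by
        have h1 : 1 / (0.9 * t) ≤ 2 / t0 := by
          rw [div_le_div_iff₀ (by positivity) ht0pos]
          linarith
        have h2 : 0 ≤ 10 * D * (2 / t0 - 1 / (0.9 * t)) := mul_nonneg (by positivity) (by linarith)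
        have h3 : 0 ≤ 240 * E * (0.9 * t / L0) := by positivity
        linarith
      have hnext : ∀ T : ℕ, Tl ≤ T → T ≤ Tm →
          PB (S (nxt τ T) ∪ Q) (A * 3 ^ k / 2 ^ T) m' (ρ9 + 2 * CQ / t) := by
        intro T hT1 hT2
        have hTa := (hTT T).1 ⟨hT1, hT2⟩
        have hnf := next_flex hA ht1000 hk25 hk1 (hTa.trans hwk)
        have hok' := hok1 T hTa
        set A' := A * 3 ^ k / 2 ^ T with hA'
        have hA'pos : 0 < A' := by positivity
        have hm'A : (m' : ℝ) ^ 2 ≤ Real.log A' := hm'sq.trans hnf.1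
        have hlA' : 800 ≤ Real.log A' := by
          have h8 := hnf.1
          linarith
        have hlA'pos : 0 < Real.log A' := by linarith
        have hPQ : PB Q A' m' (2 * CQ / t) := by
          refine PB_mono hA'pos ?_ (hQ A' hA'pos hlA' m' hm'A)
          rw [div_le_div_iff₀ hlA'pos htpos]
          have h8 := hnf.1
          have : t ≤ 2 * Real.log A' := by linarith
          nlinarith
        apply PB_union _ hPQ
        rcases le_or_gt A' (y / 2) with hc | hc
        · exact PB_mono hA'pos hρ90 (hbase _ A' hA'pos hok' hc m')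
        · have hih := ih (nxt τ T) A' hc hok' (by linarith [hnf.2.1]) (by
            have h9 : Real.log A' ≤ 0.9 * t := hnf.2.1
            push_cast at hlog
            linarith) m' hm'A
          refine PB_mono hA'pos ?_ hih
          rw [hρ9]
          have h9 : Real.log A' ≤ 0.9 * t := hnf.2.1
          have e1 : 1 / (0.9 * t) ≤ 1 / Real.log A' := one_div_le_one_div_of_le hlA'pos h9
          have e2 : 10 * D * (2 / t0 - 1 / Real.log A') ≤ 10 * D * (2 / t0 - 1 / (0.9 * t)) :=
            mul_le_mul_of_nonneg_left (by linarith) (by positivity)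
          have e3 : 240 * E * (Real.log A' / L0) ≤ 240 * E * (0.9 * t / L0) := by
            apply mul_le_mul_of_nonneg_left _ (by positivity)
            exact div_le_div_of_nonneg_right h9 hL0pos.le
          linarith
      have hst := stageW odd_one isCoprime_one_left (S := S τ) (fun T => S (nxt τ T) ∪ Q) hA hk1N hm'k
        (m := m) (Tl := Tl) (Tm := Tm) hTm (ρ := fun _ => ρ9 + 2 * CQ / t) (by
          intro w hw M x hM hx hM1 _ hMS hV
          unfold GW at hw
          rw [mem_filter] at hw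
          exact htr τ w (FW_props hw.1).2 M x hM hx (by
            have : (0 : ℝ) < M := lt_of_lt_of_le hA hM1
            exact_mod_cast this) hMS hV) hnext
      refine PB_mono hA ?_ hst
      rw [← sum_mul]
      have hmass1 : ∑ w ∈ GW (3 * k) k Tl Tm, wwt w ≤ 1 := by
        refine le_trans ?_ (sum_wwt_le (3 * k) k)
        unfold GW
        apply sum_le_sum_of_subset_of_nonneg (filter_subset _ _)
        intro w _ _; unfold wwt; positivity
      have hc0 : 0 ≤ ρ9 + 2 * CQ / t := by positivity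
      have e1 : (∑ w ∈ GW (3 * k) k Tl Tm, wwt w) * (ρ9 + 2 * CQ / t) ≤ ρ9 + 2 * CQ / t := by nlinarith
      have e2 : ρ9 + D / t + 24 * E * (t / L0) ≤ 10 * D * (2 / t0 - 1 / t) + 240 * E * (t / L0) := by
        rw [hρ9]
        have f1 : 1 / (0.9 * t) = 10 / 9 * (1 / t) := by field_simp; norm_num
        have f2 : 0.9 * t / L0 = 0.9 * (t / L0) := by ring
        have f3 : D / t = D * (1 / t) := by ring
        rw [f1, f2, f3]
        have f4 : 0 < D * (1 / t) := by positivity
        have f5 : 0 < E * (t / L0) := by positivity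
        nlinarith
      have e3 : D / t = C1 / t + 120000 / t + 2 * CQ / t := by rw [hD]; ring
      linarith
  intro τ A hyA hokA hL0 m hm
  have hA : 0 < A := lt_trans (by positivity) hyA
  obtain ⟨n, hn⟩ := exists_nat_ge (Real.log A - t0)
  have h1 := main n τ A hyA hokA hL0 (by linarith) m hm
  refine PB_mono hA ?_ h1
  have hlt : t0 < Real.log A := Real.log_lt_log (by positivity) hyA
  have hlA : 0 < Real.log A := by linarith
  have hL0p : 0 < L0 := by linarith
  have h2 : 0 < 1 / Real.log A := by positivity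
  have h3 : 10 * D * (2 / t0 - 1 / Real.log A) ≤ 20 * D / t0 := by
    have : 20 * D / t0 = 10 * D * (2 / t0) := by ring
    rw [this]
    apply mul_le_mul_of_nonneg_left _ (by positivity)
    linarith
  have h4 : 20 * D / t0 ≤ (20 * C1 + 2400000 + 240) * (1 + CQ) / t0 := by
    apply div_le_div_of_nonneg_right _ ht0pos.le
    rw [hD]
    nlinarith
  have h5 : 240 * E * (Real.log A / L0) ≤ (20 * C1 + 2400000 + 240) * E * (Real.log A / L0) := by
    apply mul_le_mul_of_nonneg_right _ (by positivity)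
    apply mul_le_mul_of_nonneg_right _ hE0.le
    linarith
  linarith

end Pool.Agent.H499R2.ND
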