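import Pool.Agent.H33.G.R_seed8.H499R2.CL.Defs
import Pool.Agent.H33.G.R_seed8.H499R2.CL.A
import Pool.Agent.H33.G.R_seed8.H499R2.CL.F

/-! Project CL, task G: tightness from above. -/

set_option autoImplicit false

namespace Pool.Agent.H499R2.ND

open Pool.Agent.H320R2.PD Finset Filter Topology

open Pool.Agent.H319R2.Lln (mu)

namespace TG

theorem c0_le4 : c0 ≤ 4 := by
  unfold c0 mu
  have h : Real.log 3 ≤ 4 * Real.log (4 / 3) := by
    have h1 : Real.log ((4 / 3 : ℝ) ^ 4) = 4 * Real.log (4 / 3) := by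
      rw [Real.log_pow]; norm_num
    rw [← h1]
    exact Real.log_le_log (by norm_num) (by norm_num)
  have h2 := Real.log_pos (by norm_num : (1 : ℝ) < 4 / 3)
  rw [div_le_iff₀ (by linarith)]
  linarith

theorem c0_nonneg' : 0 ≤ c0 := by
  unfold c0
  have h1 := mu_pos'
  have h2 := Real.log_pos (by norm_num : (1 : ℝ) < 3)
  positivity

theorem PB_mono' {S : Set ℤ} {A : ℝ} (hA : 0 < A) {m : ℕ} {ρ ρ' : ℝ} (h : PB S A m ρ)
    (hρ : ρ ≤ ρ') : PB S A m ρ' := by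
  intro u v hu
  exact (h u v hu).trans (mul_le_mul_of_nonneg_right hρ (by positivity))

theorem le_ss {b x : ℝ} (_hb : 0 ≤ b) (h : b ^ 4 ≤ x) : b ≤ Real.sqrt (Real.sqrt x) := by
  apply Real.le_sqrt_of_sq_le
  apply Real.le_sqrt_of_sq_le
  calc (b ^ 2) ^ 2 = b ^ 4 := by ring
    _ ≤ x := h

theorem exK {C η : ℝ} (_hC : 0 < C) (hη : 0 < η) :
    ∃ K : ℝ, 4 ≤ K ∧ C * Real.exp (-(K ^ 2 / 32)) ≤ η / 2 := by
  refine ⟨max 4 (16 * C / η), le_max_left _ _, ?_⟩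
  set K := max 4 (16 * C / η) with hK
  have h4 : 4 ≤ K := le_max_left _ _
  have h5 : 16 * C / η ≤ K := le_max_right _ _
  rw [div_le_iff₀ hη] at h5
  have h6 := Real.add_one_le_exp (K ^ 2 / 32)
  rw [Real.exp_neg, ← div_eq_mul_inv, div_le_iff₀ (Real.exp_pos _)]
  have h7 : K / 8 ≤ Real.exp (K ^ 2 / 32) := by nlinarith
  calc C ≤ η / 2 * (K / 8) := by linarith
    _ ≤ η / 2 * Real.exp (K ^ 2 / 32) := mul_le_mul_of_nonneg_left h7 (by positivity)

/-- the windows of one stage -/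
theorem tight_next {K L0 A : ℝ} (hK : 0 ≤ K) (hA : 0 < A) (hL : 1000 ≤ Real.log A)
    (hL0 : Real.log A ≤ L0) {T : ℕ}
    (hT : |(T : ℝ) - 2 * ⌊Real.log A / 2⌋₊| ≤ wid K L0 (Real.log A)) :
    800 ≤ Real.log (A * 3 ^ ⌊Real.log A / 2⌋₊ / 2 ^ T) ∧
    |Real.log (A * 3 ^ ⌊Real.log A / 2⌋₊ / 2 ^ T) / mu - (Real.log A / mu - T)|
      ≤ 4 * (K * Real.sqrt (Real.sqrt (L0 * Real.log A))) ∧
    160 * K * Real.sqrt (Real.sqrt (L0 * Real.log (A * 3 ^ ⌊Real.log A / 2⌋₊ / 2 ^ T)))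
      ≤ 156 * (K * Real.sqrt (Real.sqrt (L0 * Real.log A))) := by
  set k := ⌊Real.log A / 2⌋₊ with hk
  set L := Real.log A with hLd
  have hk1 : (k : ℝ) ≤ L / 2 := Nat.floor_le (by linarith)
  have hk2 : L / 2 - 1 < k := Nat.sub_one_lt_floor _
  have hw1 : wid K L0 L ≤ K * Real.sqrt (Real.sqrt (L0 * L)) := min_le_left _ _
  have hw2 : wid K L0 L ≤ L / 50 := min_le_right _ _
  obtain ⟨h1, h2, h3⟩ := next_flex (k := k) (T := T) hA hL (by linarith) hk1
    (hT.trans (hw2.trans (by linarith)))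
  refine ⟨by linarith, ?_, ?_⟩
  · rw [h3, show L / mu - T - c0 * ((T : ℝ) - 2 * k) - (L / mu - T) = -(c0 * ((T : ℝ) - 2 * k)) by ring,
      abs_neg, abs_mul, abs_of_nonneg c0_nonneg']
    calc c0 * |(T : ℝ) - 2 * k| ≤ 4 * |(T : ℝ) - 2 * k| :=
          mul_le_mul_of_nonneg_right c0_le4 (abs_nonneg _)
      _ ≤ _ := mul_le_mul_of_nonneg_left (hT.trans hw1) (by norm_num)
  · set L' := Real.log (A * 3 ^ k / 2 ^ T) with hL'
    have h0 : 0 ≤ L0 * L := mul_nonneg (by linarith) (by linarith)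
    have h4 : L0 * L' ≤ (0.975 ^ 2) ^ 2 * (L0 * L) := by
      have : L' ≤ 0.9 * L := h2
      have h5 : L0 * L' ≤ L0 * (0.9 * L) := mul_le_mul_of_nonneg_left this (by linarith)
      have h6 : (0.9 : ℝ) * (L0 * L) ≤ (0.975 ^ 2) ^ 2 * (L0 * L) :=
        mul_le_mul_of_nonneg_right (by norm_num) h0
      linarith
    have h7 : Real.sqrt (Real.sqrt (L0 * L')) ≤ 0.975 * Real.sqrt (Real.sqrt (L0 * L)) := by
      calc Real.sqrt (Real.sqrt (L0 * L')) ≤ Real.sqrt (Real.sqrt ((0.975 ^ 2) ^ 2 * (L0 * L))) :=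
            Real.sqrt_le_sqrt (Real.sqrt_le_sqrt h4)
        _ = 0.975 * Real.sqrt (Real.sqrt (L0 * L)) := by
            rw [Real.sqrt_mul (by positivity), Real.sqrt_sq (by positivity),
              Real.sqrt_mul (by positivity), Real.sqrt_sq (by positivity)]
    have h8 := mul_le_mul_of_nonneg_left h7 (show 0 ≤ 160 * K by positivity)
    refine h8.trans (le_of_eq ?_)
    ring

theorem exy {C η : ℝ} (_hC : 0 < C) (hη : 0 < η) :
    ∃ y : ℝ, 0 < y ∧ 1000 ≤ Real.log (y / 2) ∧ C / Real.log (y / 2) ≤ η / 2 := by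
  refine ⟨2 * Real.exp (max 1000 (2 * C / η)), by positivity, ?_⟩
  have h1 : Real.log (2 * Real.exp (max 1000 (2 * C / η)) / 2) = max 1000 (2 * C / η) := by
    rw [mul_div_cancel_left₀ _ (by norm_num : (2 : ℝ) ≠ 0), Real.log_exp]
  rw [h1]
  refine ⟨le_max_left _ _, ?_⟩
  have h2 : 2 * C / η ≤ max 1000 (2 * C / η) := le_max_right _ _
  have h3 : (0 : ℝ) < max 1000 (2 * C / η) := lt_of_lt_of_le (by norm_num) (le_max_left _ _)
  rw [div_le_iff₀ hη] at h2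
  rw [div_le_iff₀ h3]
  linarith

/-- the integers below `y` which meet `R` meet it within `W` steps -/
theorem exW (R : Set ℤ) (y : ℝ) : ∃ W : ℕ, ∀ x : ℤ, 0 < x → (x : ℝ) < y → x ∈ Me R →
    ∃ k ≤ W, (Td 1)^[k] x ∈ R := by
  classical
  have hM : ∀ a : ℕ, ∃ M : ℕ, (∃ k, (Td 1)^[k] (a : ℤ) ∈ R) → ∃ k ≤ M, (Td 1)^[k] (a : ℤ) ∈ R := by
    intro a
    by_cases h : ∃ k, (Td 1)^[k] (a : ℤ) ∈ R
    · obtain ⟨k, hk⟩ := h
      exact ⟨k, fun _ => ⟨k, le_rfl, hk⟩⟩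
    · exact ⟨0, fun h' => absurd h' h⟩
  choose M hM using hM
  refine ⟨(range (⌈y⌉₊ + 1)).sup M, fun x hx hxy hm => ?_⟩
  obtain ⟨a, rfl⟩ := Int.eq_ofNat_of_zero_le hx.le
  obtain ⟨k, hk, hR⟩ := hM a hm.2
  refine ⟨k, hk.trans (Finset.le_sup (f := M) (mem_range.2 ?_)), hR⟩
  have h1 : (a : ℝ) < y := by exact_mod_cast hxy
  have h2 : (a : ℝ) ≤ ⌈y⌉₊ := h1.le.trans (Nat.le_ceil _)
  have : a ≤ ⌈y⌉₊ := by exact_mod_cast h2
  omega

end TG

open TG

theorem late_tight {R : Set ℤ} (hR : FC R) {η : ℝ} (hη : 0 < η) : ∃ K A0 : ℝ, 1 ≤ K ∧ 0 < A0 ∧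
    ∀ A : ℝ, A0 ≤ A → ∀ s : ℤ, Real.log A / mu + K * Real.sqrt (Real.log A) ≤ s → ∀ m : ℕ,
      (m : ℝ) ^ 2 ≤ Real.log A → PB (La R s) A m η := by
  classical
  obtain ⟨C, hC, hall⟩ := all_scalesW
  have hmu := mu_pos'
  obtain ⟨K, hK4, hKη⟩ := exK hC hη
  obtain ⟨y, hy, hy1000, hyη⟩ := exy hC hη
  obtain ⟨W, hW⟩ := exW R y
  refine ⟨160 * K, Real.exp (max 1000 ((W : ℝ) ^ 4)) + y, by linarith, by positivity, ?_⟩
  intro A hA s hs m hm
  have hA1 : Real.exp (max 1000 ((W : ℝ) ^ 4)) ≤ A := by linarith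
  have hA0 : 0 < A := (Real.exp_pos _).trans_le hA1
  have hAy : y / 2 < A := by linarith [Real.exp_pos (max 1000 ((W : ℝ) ^ 4))]
  have hLA : max 1000 ((W : ℝ) ^ 4) ≤ Real.log A := (Real.le_log_iff_exp_le hA0).2 hA1
  have hL1 : 1000 ≤ Real.log A := (le_max_left _ _).trans hLA
  have hL2 : (W : ℝ) ^ 4 ≤ Real.log A := (le_max_right _ _).trans hLA
  have key := hall K (Real.log A) y 0 hK4 le_rfl hy hy1000 ℤ (fun s => La R s) ∅
    (fun s A' => 800 ≤ Real.log A' ∧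
      Real.log A' / mu + 160 * K * Real.sqrt (Real.sqrt (Real.log A * Real.log A')) ≤ s)
    (fun s T => s - T) ?_ ?_ ?_ ?_ s A hAy ?_ le_rfl m hm
  · refine PB_mono' hA0 key ?_
    have h1 : Real.log A / Real.log A = 1 := div_self (by linarith)
    rw [h1]
    have : C * (1 + 0) / Real.log (y / 2) = C / Real.log (y / 2) := by ring
    rw [this]
    linarith
  · -- base
    rintro τ A' hA' ⟨hok1, hok2⟩ hAy' m' u v hu
    have hemp : cls (La R τ) A' (2 * A') m' u v = ∅ := by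
      rw [Finset.eq_empty_iff_forall_notMem]
      intro x hx
      rw [mem_cls] at hx
      obtain ⟨⟨h1, h2⟩, _, h4, _⟩ := hx
      have hx0 : 0 < x := by
        have : (0 : ℝ) < x := hA'.trans_le h1
        exact_mod_cast this
      obtain ⟨k, hk, hkR⟩ := hW x hx0 (by linarith) h4.1
      apply h4.2
      refine ⟨hx0, k, ?_, hkR⟩
      have h5 : (W : ℝ) ≤ Real.sqrt (Real.sqrt (Real.log A * Real.log A')) := by
        apply le_ss (Nat.cast_nonneg W)
        refine hL2.trans ?_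
        nlinarith
      have h6 : 0 ≤ Real.log A' / mu := by
        apply div_nonneg _ hmu.le
        linarith
      have h7 : (k : ℝ) ≤ W := by exact_mod_cast hk
      have h8 : (W : ℝ) ≤ 160 * K * Real.sqrt (Real.sqrt (Real.log A * Real.log A')) := by
        have h9 := mul_le_mul_of_nonneg_left h5 (show 0 ≤ 160 * K by linarith)
        have h10 : (0 : ℝ) ≤ W := Nat.cast_nonneg W
        nlinarith
      have h9 : (k : ℝ) ≤ (τ : ℝ) := by linarith
      exact_mod_cast h9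
    rw [hemp]
    simp
  · -- Q
    intro A' hA' _ m' _ u v _
    have hemp : cls (∅ : Set ℤ) A' (2 * A') m' u v = ∅ := by
      rw [Finset.eq_empty_iff_forall_notMem]
      intro x hx
      rw [mem_cls] at hx
      exact hx.2.2.1
    rw [hemp]
    simp
  · -- step
    rintro τ A' hA' ⟨hok1, hok2⟩ hAy' hLL T hT
    have hL' : 1000 ≤ Real.log A' := hy1000.trans (Real.log_le_log (by positivity) hAy'.le)
    obtain ⟨h1, h2, h3⟩ := tight_next (by linarith) hA' hL' hLL hT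
    refine ⟨h1, ?_⟩
    have h4 := (abs_le.1 h2).2
    push_cast
    linarith
  · -- transition
    intro τ w hw M x hM hx hM0 hMS h
    exact Or.inl (La_word hR hw hM hx hM0 hMS h)
  · refine ⟨by linarith, ?_⟩
    rw [Real.sqrt_mul_self (by linarith)]
    exact hs

end Pool.Agent.H499R2.ND
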