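import Pool.Agent.H33.G.R_seed8.H499R2.CL.Defs
import Pool.Agent.H33.G.R_seed8.H499R2.CL.G

/-! Project CL, task H: tightness from below. -/

set_option autoImplicit false

namespace Pool.Agent.H499R2.ND

open Pool.Agent.H320R2.PD Finset Filter Topology

open Pool.Agent.H319R2.Lln (mu)

open TG

theorem early_tight {R : Set ℤ} (hR : FC R) (hS : Sp R) {η : ℝ} (hη : 0 < η) : ∃ K A0 : ℝ, 1 ≤ K ∧ 0 < A0 ∧
    ∀ A : ℝ, A0 ≤ A → ∀ s : ℤ, (s : ℝ) ≤ Real.log A / mu - K * Real.sqrt (Real.log A) → ∀ m : ℕ,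
      (m : ℝ) ^ 2 ≤ Real.log A → PB (Ea R s) A m η := by
  classical
  obtain ⟨C, hC, hall⟩ := all_scalesW
  obtain ⟨CR, hCR, hSp⟩ := hS
  have hmu := mu_pos'
  obtain ⟨K, hK4, hKη⟩ := exK hC hη
  obtain ⟨y, hy, hy1000, hyη⟩ := exy (show 0 < C * (1 + CR) by positivity) hη
  set B : ℝ := Real.log (y / 2) / mu with hB
  have hB0 : 0 < B := div_pos (by linarith) hmu
  refine ⟨160 * K, Real.exp (max 1000 (B ^ 4)) + y, by linarith, by positivity, ?_⟩
  intro A hA s hs m hm
  have hA1 : Real.exp (max 1000 (B ^ 4)) ≤ A := by linarith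
  have hA0 : 0 < A := (Real.exp_pos _).trans_le hA1
  have hAy : y / 2 < A := by linarith [Real.exp_pos (max 1000 (B ^ 4))]
  have hLA : max 1000 (B ^ 4) ≤ Real.log A := (Real.le_log_iff_exp_le hA0).2 hA1
  have hL1 : 1000 ≤ Real.log A := (le_max_left _ _).trans hLA
  have hL2 : B ^ 4 ≤ Real.log A := (le_max_right _ _).trans hLA
  have key := hall K (Real.log A) y CR hK4 hCR hy hy1000 ℤ (fun s => Ea R s) R
    (fun s A' => 800 ≤ Real.log A' ∧
      (s : ℝ) ≤ Real.log A' / mu - 160 * K * Real.sqrt (Real.sqrt (Real.log A * Real.log A')))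
    (fun s T => s - T) ?_ ?_ ?_ ?_ s A hAy ?_ le_rfl m hm
  · refine PB_mono' hA0 key ?_
    have h1 : Real.log A / Real.log A = 1 := div_self (by linarith)
    rw [h1]
    linarith
  · -- base
    rintro τ A' hA' ⟨hok1, hok2⟩ hAy' m' u v hu
    have hemp : cls (Ea R τ) A' (2 * A') m' u v = ∅ := by
      rw [Finset.eq_empty_iff_forall_notMem]
      intro x hx
      rw [mem_cls] at hx
      obtain ⟨_, _, h4, _⟩ := hx
      obtain ⟨hx0, k, hk, _⟩ := h4
      have h5 : B ≤ Real.sqrt (Real.sqrt (Real.log A * Real.log A')) := by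
        apply le_ss hB0.le
        refine hL2.trans ?_
        nlinarith
      have h6 : Real.log A' / mu ≤ B :=
        div_le_div_of_nonneg_right (Real.log_le_log hA' hAy') hmu.le
      have h8 : B < 160 * K * Real.sqrt (Real.sqrt (Real.log A * Real.log A')) := by
        have h9 := mul_le_mul_of_nonneg_left h5 (show 0 ≤ 160 * K by linarith)
        nlinarith
      have h9 : (τ : ℝ) < 0 := by linarith
      have h10 : τ < 0 := by exact_mod_cast h9
      omega
    rw [hemp]
    simp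
  · -- Q
    intro A' hA' h800 m' hm'
    exact hSp A' hA' (by linarith) m' hm'
  · -- step
    rintro τ A' hA' ⟨hok1, hok2⟩ hAy' hLL T hT
    have hL' : 1000 ≤ Real.log A' := hy1000.trans (Real.log_le_log (by positivity) hAy'.le)
    obtain ⟨h1, h2, h3⟩ := tight_next (by linarith) hA' hL' hLL hT
    refine ⟨h1, ?_⟩
    have h4 := (abs_le.1 h2).1
    push_cast
    linarith
  · -- transition
    intro τ w hw M x hM hx hM0 hMS h
    exact Ea_word hR hw hM hx hM0 hMS h
  · refine ⟨by linarith, ?_⟩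
    rw [Real.sqrt_mul_self (by linarith)]
    exact hs

end Pool.Agent.H499R2.ND
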