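import Pool.Agent.H33.G.R_seed8.H499R2.CL.H
import Pool.Agent.H33.G.R_seed8.H499R2.CL.J
import Pool.Agent.H33.G.R_seed8.H499R2.CL.K
import Pool.Agent.H33.G.R_seed8.H499R2.CL.L
import Pool.Agent.H33.G.R_seed8.H499R2.CL.PBs
import Pool.Agent.H33.G.R_seed8.H499R2.CL.M1

/-! Project CL, task M, part 2: the central limit theorem in windows. -/

set_option autoImplicit false

namespace Pool.Agent.H499R2.ND

open Pool.Agent.H320R2.PD Finset Filter Topology

open Pool.Agent.H319R2.Lln (mu)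

open Classical in
/-- composition of the stages for a family of sets which is small for the good times and
bounded for all times -/
theorem M_core {S : ℤ → Set ℤ} {Q : Set ℤ} {CQ : ℝ} (hCQ : 0 ≤ CQ)
    (hQ : ∀ A, 0 < A → 800 ≤ Real.log A → ∀ m : ℕ, (m : ℝ) ^ 2 ≤ Real.log A → PB Q A m (CQ / Real.log A))
    (htr : ∀ s, ∀ w : List ℕ, (∀ a ∈ w, 1 ≤ a) → ∀ M x : ℤ, Odd M → Odd x → 0 < M → M ∈ S s →
      Vw 1 w M x → x ∈ S (s - w.sum) ∪ Q)
    {δ' η : ℝ} (hδ' : 0 ≤ δ') (hη : 0 ≤ η) (bad : ℝ → ℝ → Prop) {At : ℝ} (hAt : 0 < At)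
    (hgood : ∀ A : ℝ, At ≤ A → ∀ (s : ℤ) (m : ℕ), (m : ℝ) ^ 2 ≤ Real.log A → ∀ B : ℝ,
      Real.sqrt (Real.log A) ≤ B → ¬ bad B (s - Real.log A / mu) → PB (S s) A m η)
    (hall : ∀ A : ℝ, At ≤ A → ∀ (s : ℤ) (m : ℕ), (m : ℝ) ^ 2 ≤ Real.log A → PB (S s) A m δ')
    (J : ℕ) {ε : ℝ} (hε : 0 < ε) :
    ∃ L0 : ℝ, ∀ A : ℝ, 0 < A → L0 ≤ Real.log A → ∃ K cap : ℕ,
      |(K : ℝ) - (1 - (1 - 0.9 * mu) ^ J) * Real.log A / (2 * mu)| ≤ J ∧
      ∀ s : ℤ, PB (S s) A 0 (η + δ' * (∑ w ∈ (FW cap K).filter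
        (fun w => bad (Real.sqrt (1.05 * ((1 - 0.9 * mu) ^ J * Real.log A)))
          (s - Real.log A / mu + c0 * ((w.sum : ℝ) - 2 * (K : ℝ)))), wwt w) + ε) := by
  have hmu := mu_pos'
  have hmb := mu_bounds
  have hg0 : 0 < 1 - 0.9 * mu := by linarith [hmb.2]
  set g : ℝ := 1 - 0.9 * mu with hg
  obtain ⟨N, hN, hlen⟩ := lengths J
  obtain ⟨A1, hA1, hA1', hcomp⟩ := compose (N := N) hN (ε := ε / (J + 1)) (by positivity) hCQ
  obtain ⟨L1, hL1⟩ := hlen A1
  have hgJ : 0 < g ^ J := by positivity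
  refine ⟨max (max L1 0) (|Real.log At| / (0.95 * g ^ J)), ?_⟩
  intro A hA hLA
  have hLA1 : L1 ≤ Real.log A := ((le_max_left _ _).trans (le_max_left _ _)).trans hLA
  have hLA0 : 0 ≤ Real.log A := ((le_max_right _ _).trans (le_max_left _ _)).trans hLA
  have hLA2 : |Real.log At| / (0.95 * g ^ J) ≤ Real.log A := (le_max_right _ _).trans hLA
  obtain ⟨ks, hks, hGd, hK⟩ := hL1 A hA hLA1
  refine ⟨ks.sum, 3 * ks.sum, hK, ?_⟩
  intro s
  set L := Real.log A with hL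
  set B := Real.sqrt (1.05 * (g ^ J * L)) with hB
  have h := hcomp S Q (fun t => if bad B t then δ' else η)
    (fun A' => |Real.log A' - g ^ J * L| ≤ g ^ J * L / 20) hQ htr (by
      intro t; split_ifs <;> assumption) (by
      intro A' hA' hP s' m hm
      have hP' := abs_le.1 hP
      have hAtA : At ≤ A' := by
        have h1 : Real.log At ≤ Real.log A' := by
          rw [div_le_iff₀ (by positivity)] at hLA2
          have := le_abs_self (Real.log At)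
          nlinarith [hP'.1]
        exact (Real.log_le_log_iff hAt hA').1 h1
      split_ifs with hb
      · exact hall A' hAtA s' m hm
      · refine hgood A' hAtA s' m hm B ?_ hb
        rw [hB]
        apply Real.sqrt_le_sqrt
        linarith [hP'.2])
    ks (3 * ks.sum) (by
      intro k hk
      have := List.single_le_sum (l := ks) (fun _ _ => Nat.zero_le _) k hk
      omega) A hA hGd s 0 (by simpa using hLA0)
  refine PB_mono hA ?_ h
  have h1 : ∑ w ∈ FW (3 * ks.sum) ks.sum, wwt w *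
        (if bad B (s - L / mu + c0 * ((w.sum : ℝ) - 2 * (ks.sum : ℝ))) then δ' else η)
      ≤ η + δ' * (∑ w ∈ (FW (3 * ks.sum) ks.sum).filter
        (fun w => bad B (s - L / mu + c0 * ((w.sum : ℝ) - 2 * (ks.sum : ℝ)))), wwt w) := by
    rw [sum_filter, mul_sum]
    have h2 : ∑ w ∈ FW (3 * ks.sum) ks.sum, wwt w *
        (if bad B (s - L / mu + c0 * ((w.sum : ℝ) - 2 * (ks.sum : ℝ))) then δ' else η)
        ≤ ∑ w ∈ FW (3 * ks.sum) ks.sum, (η * wwt w + δ' *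
          (if bad B (s - L / mu + c0 * ((w.sum : ℝ) - 2 * (ks.sum : ℝ))) then wwt w else 0)) := by
      apply sum_le_sum
      intro w _
      have hw := wwt_nonneg w
      split_ifs
      · have : 0 ≤ η * wwt w := by positivity
        linarith
      · linarith
    refine h2.trans ?_
    rw [sum_add_distrib, ← mul_sum]
    have h3 := sum_wwt_le (3 * ks.sum) ks.sum
    have : η * ∑ w ∈ FW (3 * ks.sum) ks.sum, wwt w ≤ η * 1 := mul_le_mul_of_nonneg_left h3 hη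
    linarith
  have h4 : (ks.length : ℝ) * (ε / (J + 1)) ≤ ε := by
    rw [hks]
    have : (J : ℝ) * (ε / (J + 1)) = ε * (J / (J + 1)) := by ring
    rw [this]
    have h5 : (J : ℝ) / (J + 1) ≤ 1 := by
      rw [div_le_one (by positivity)]; linarith
    nlinarith
  linarith

theorem M_Phi_nonneg (x : ℝ) : 0 ≤ Phi x := by
  unfold Phi; exact MeasureTheory.measureReal_nonneg

theorem M_Phi_le_one (x : ℝ) : Phi x ≤ 1 := by
  unfold Phi; exact MeasureTheory.measureReal_le_one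

/-- continuity in the form used below -/
theorem M_Phi_near (z : ℝ) {e : ℝ} (he : 0 < e) : ∃ θ : ℝ, 0 < θ ∧ Phi (z + θ) ≤ Phi z + e := by
  have h := (Phi_continuous.tendsto z).eventually (gt_mem_nhds (show Phi z < Phi z + e by linarith))
  obtain ⟨r, hr, hr'⟩ := Metric.eventually_nhds_iff.1 h
  refine ⟨r / 2, by positivity, (hr' ?_).le⟩
  rw [Real.dist_eq, add_sub_cancel_left, abs_of_pos (by positivity)]
  linarith

/-- final arithmetic -/
theorem M_arith {δ p m e ε ε2 η : ℝ} (hδ : 0 ≤ δ) (hp1 : p ≤ 1) (hε : 0 < ε)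
    (he : e = ε / (8 * (δ + 1))) (hm : m ≤ p + e + e) (h2 : ε2 = min 1 (ε / 8)) (hη : η = ε / 8) :
    η + (δ + ε2) * m + ε / 8 ≤ δ * p + ε := by
  have h2p : 0 < ε2 := by rw [h2]; apply lt_min <;> linarith
  have h21 : ε2 ≤ 1 := by rw [h2]; exact min_le_left _ _
  have h22 : ε2 ≤ ε / 8 := by rw [h2]; exact min_le_right _ _
  have he0 : 0 < e := by rw [he]; positivity
  have he1 : (δ + 1) * e = ε / 8 := by rw [he]; field_simp
  have h3 : (δ + ε2) * m ≤ (δ + ε2) * (p + e + e) := mul_le_mul_of_nonneg_left hm (by linarith)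
  have h4 : (δ + ε2) * e ≤ (δ + 1) * e := mul_le_mul_of_nonneg_right (by linarith) he0.le
  have h5 : ε2 * p ≤ ε2 * 1 := mul_le_mul_of_nonneg_left hp1 h2p.le
  nlinarith

/-- the number of letters tends to infinity -/
theorem M_large (J : ℕ) (hJ : 1 ≤ J) (K0 : ℕ) : ∃ L3 : ℝ, ∀ L : ℝ, L3 ≤ L → ∀ K : ℕ,
    |(K : ℝ) - (1 - (1 - 0.9 * mu) ^ J) * L / (2 * mu)| ≤ J → K0 ≤ K := by
  have hmu := mu_pos'
  have hmb := mu_bounds
  have hg0 : 0 < 1 - 0.9 * mu := by linarith [hmb.2]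
  have hg1 : 1 - 0.9 * mu < 1 := by linarith
  set g : ℝ := 1 - 0.9 * mu with hg
  have hgJ : g ^ J < 1 := pow_lt_one₀ hg0.le hg1 (by omega)
  refine ⟨(K0 + J) * (2 * mu) / (1 - g ^ J), ?_⟩
  intro L hL K hK
  rw [div_le_iff₀ (by linarith)] at hL
  have h1 := (abs_le.1 hK).1
  have h2 : (K0 : ℝ) + J ≤ (1 - g ^ J) * L / (2 * mu) := by
    rw [le_div_iff₀ (by positivity)]
    linarith
  have h3 : (K0 : ℝ) ≤ K := by linarith
  exact_mod_cast h3

theorem late_clt {R : Set ℤ} (hR : FC R) {δ : ℝ} (hδ : 0 ≤ δ)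
    (hM : ∀ ε : ℝ, 0 < ε → ∃ A0 : ℝ, 0 < A0 ∧ ∀ A : ℝ, A0 ≤ A → ∀ m : ℕ, (m : ℝ) ^ 2 ≤ Real.log A →
      PB (Me R) A m (δ + ε)) (z : ℝ) {ε : ℝ} (hε : 0 < ε) :
    ∃ A0 : ℝ, 0 < A0 ∧ ∀ A : ℝ, A0 ≤ A → ∀ s : ℤ, Real.log A / mu + z * sg * Real.sqrt (Real.log A) ≤ s →
      PB (La R s) A 0 (δ * (1 - Phi z) + ε) := by
  classical
  have hc0 := c0_pos
  have he : 0 < ε / (8 * (δ + 1)) := by positivity
  obtain ⟨θ, hθ, hθ'⟩ := M_Phi_near (-z) he
  have h2p : 0 < min 1 (ε / 8) := by apply lt_min <;> linarith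
  obtain ⟨AM, hAM, hAM'⟩ := hM _ h2p
  obtain ⟨Kt, At, hKt, hAt, htight⟩ := late_tight hR (show 0 < ε / 8 by positivity)
  obtain ⟨J, hJ1, L2, hL2⟩ := key_len z Kt hθ
  obtain ⟨K0, hK0⟩ := word_clt (-z + θ) he
  obtain ⟨L3, hL3⟩ := M_large J hJ1 K0
  obtain ⟨L0, hL0⟩ := M_core (S := La R) (Q := ∅) (CQ := 0) le_rfl
    (by
      intro A hA _ m _ u v _
      have : cls ∅ A (2 * A) m u v = ∅ := by
        ext x
        rw [mem_cls]
        simp
      rw [this]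
      simp)
    (fun s w hw M x hMo hx hM0 hMS h => Or.inl (La_word hR hw hMo hx hM0 hMS h))
    (δ' := δ + min 1 (ε / 8)) (η := ε / 8) (by positivity) (by positivity)
    (fun B t => t < Kt * B) (At := max At AM) (lt_max_of_lt_left hAt)
    (by
      intro A hA s m hm B hB hb
      refine htight A ((le_max_left _ _).trans hA) s ?_ m hm
      have h1 : Kt * Real.sqrt (Real.log A) ≤ Kt * B := mul_le_mul_of_nonneg_left hB (by linarith)
      linarith [not_lt.1 hb])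
    (by
      intro A hA s m hm
      exact PB_sub (fun x _ _ hx => hx.1) (hAM' A ((le_max_right _ _).trans hA) m hm))
    J (show 0 < ε / 8 by positivity)
  refine ⟨Real.exp (max (max L0 L2) L3), Real.exp_pos _, ?_⟩
  intro A hA s hs
  have hA0 : 0 < A := lt_of_lt_of_le (Real.exp_pos _) hA
  have hLA : max (max L0 L2) L3 ≤ Real.log A := by
    rw [Real.le_log_iff_exp_le hA0]; exact hA
  obtain ⟨K, cap, hK, hPB⟩ := hL0 A hA0 (((le_max_left _ _).trans (le_max_left _ _)).trans hLA)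
  have hkey := hL2 (Real.log A) (((le_max_right _ _).trans (le_max_left _ _)).trans hLA) K hK
  have hKK := hL3 (Real.log A) ((le_max_right _ _).trans hLA) K hK
  refine PB_mono hA0 ?_ (hPB s)
  refine M_arith hδ (by linarith [M_Phi_nonneg z]) hε rfl ?_ rfl rfl
  have hw := (hK0 K hKK cap).1
  rw [Phi_neg] at hθ'
  refine le_trans ?_ (hw.trans (by linarith))
  apply sum_le_sum_of_subset_of_nonneg
  · intro w hw
    rw [mem_filter] at hw ⊢
    refine ⟨hw.1, ?_⟩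
    have h1 := hw.2
    have h2 : c0 * ((w.sum : ℝ) - 2 * (K : ℝ)) ≤ c0 * ((-z + θ) * Real.sqrt (2 * K)) := by
      linarith
    have h3 := le_of_mul_le_mul_left h2 hc0
    linarith
  · intro w _ _
    exact wwt_nonneg w

theorem early_clt {R : Set ℤ} (hR : FC R) (hS : Sp R) {δ : ℝ} (hδ : 0 ≤ δ)
    (hM : ∀ ε : ℝ, 0 < ε → ∃ A0 : ℝ, 0 < A0 ∧ ∀ A : ℝ, A0 ≤ A → ∀ m : ℕ, (m : ℝ) ^ 2 ≤ Real.log A →
      PB (Me R) A m (δ + ε)) (z : ℝ) {ε : ℝ} (hε : 0 < ε) :
    ∃ A0 : ℝ, 0 < A0 ∧ ∀ A : ℝ, A0 ≤ A → ∀ s : ℤ, (s : ℝ) ≤ Real.log A / mu + z * sg * Real.sqrt (Real.log A) →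
      PB (Ea R s) A 0 (δ * Phi z + ε) := by
  classical
  have hc0 := c0_pos
  have he : 0 < ε / (8 * (δ + 1)) := by positivity
  obtain ⟨θ, hθ, hθ'⟩ := M_Phi_near z he
  have h2p : 0 < min 1 (ε / 8) := by apply lt_min <;> linarith
  obtain ⟨AM, hAM, hAM'⟩ := hM _ h2p
  obtain ⟨Kt, At, hKt, hAt, htight⟩ := early_tight hR hS (show 0 < ε / 8 by positivity)
  obtain ⟨J, hJ1, L2, hL2⟩ := key_len (-z) Kt hθ
  obtain ⟨K0, hK0⟩ := word_clt (-(z + θ)) he
  obtain ⟨L3, hL3⟩ := M_large J hJ1 K0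
  obtain ⟨CR, hCR, hCR'⟩ := hS
  obtain ⟨L0, hL0⟩ := M_core (S := Ea R) (Q := R) (CQ := CR) hCR
    (fun A hA h8 m hm => hCR' A hA (by linarith) m hm)
    (fun s w hw M x hMo hx hM0 hMS h => Ea_word hR hw hMo hx hM0 hMS h)
    (δ' := δ + min 1 (ε / 8)) (η := ε / 8) (by positivity) (by positivity)
    (fun B t => -(Kt * B) < t) (At := max At AM) (lt_max_of_lt_left hAt)
    (by
      intro A hA s m hm B hB hb
      refine htight A ((le_max_left _ _).trans hA) s ?_ m hm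
      have h1 : Kt * Real.sqrt (Real.log A) ≤ Kt * B := mul_le_mul_of_nonneg_left hB (by linarith)
      linarith [not_lt.1 hb])
    (by
      intro A hA s m hm
      refine PB_sub (fun x _ _ hx => ?_) (hAM' A ((le_max_right _ _).trans hA) m hm)
      obtain ⟨h0, k, _, hk⟩ := hx
      exact ⟨h0, k, hk⟩)
    J (show 0 < ε / 8 by positivity)
  refine ⟨Real.exp (max (max L0 L2) L3), Real.exp_pos _, ?_⟩
  intro A hA s hs
  have hA0 : 0 < A := lt_of_lt_of_le (Real.exp_pos _) hA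
  have hLA : max (max L0 L2) L3 ≤ Real.log A := by
    rw [Real.le_log_iff_exp_le hA0]; exact hA
  obtain ⟨K, cap, hK, hPB⟩ := hL0 A hA0 (((le_max_left _ _).trans (le_max_left _ _)).trans hLA)
  have hkey := hL2 (Real.log A) (((le_max_right _ _).trans (le_max_left _ _)).trans hLA) K hK
  have hKK := hL3 (Real.log A) ((le_max_right _ _).trans hLA) K hK
  refine PB_mono hA0 ?_ (hPB s)
  refine M_arith hδ (M_Phi_le_one z) hε rfl ?_ rfl rfl
  have hw := (hK0 K hKK cap).2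
  rw [Phi_neg] at hw
  refine le_trans ?_ (hw.trans (by linarith))
  apply sum_le_sum_of_subset_of_nonneg
  · intro w hw
    rw [mem_filter] at hw ⊢
    refine ⟨hw.1, ?_⟩
    have h1 := hw.2
    have h2 : c0 * (-((z + θ) * Real.sqrt (2 * K))) ≤ c0 * ((w.sum : ℝ) - 2 * (K : ℝ)) := by
      rw [neg_neg] at hkey
      linarith
    have h3 := le_of_mul_le_mul_left h2 hc0
    linarith
  · intro w _ _
    exact wwt_nonneg w

end Pool.Agent.H499R2.ND
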