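import Pool.Agent.H33.G.R_seed8.H499R2.CL.PBs
import Pool.Agent.H33.G.R_seed8.H499R2.CL.M1

/-! Project CL: trajectories, events, comparison of time bounds. -/

set_option autoImplicit false

namespace Pool.Agent.H499R2.ND

open Pool.Agent.H320R2.PD Finset Filter Topology

open Pool.Agent.H319R2.Lln (mu)

/-- the forward trajectory of `a` -/
def orb (a : ℕ) : Set ℤ := {y : ℤ | ∃ j : ℕ, (Td 1)^[j] (a : ℤ) = y}

theorem orb_FC (a : ℕ) : FC (orb a) := by
  rintro x ⟨j, hj⟩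
  refine ⟨j + 1, ?_⟩
  rw [Function.iterate_succ_apply', hj]

theorem orb_cast (a n k : ℕ) : (Td 1)^[k] (n : ℤ) ∈ orb a ↔ ∃ j : ℕ, Tn^[k] n = Tn^[j] a := by
  unfold orb
  rw [Set.mem_setOf_eq]
  constructor
  · rintro ⟨j, hj⟩
    rw [Td_iter_cast, Td_iter_cast] at hj
    exact ⟨j, by exact_mod_cast hj.symm⟩
  · rintro ⟨j, hj⟩
    refine ⟨j, ?_⟩
    rw [Td_iter_cast, Td_iter_cast, hj]

theorem Me_orb (a : ℕ) : Me (orb a) = NS (Cn a) := by
  ext x
  unfold Me NS
  rw [Set.mem_setOf_eq, Set.mem_setOf_eq]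
  constructor
  · rintro ⟨hx, k, hk⟩
    refine ⟨by omega, ?_⟩
    obtain ⟨n, rfl⟩ : ∃ n : ℕ, x = n := ⟨x.toNat, (Int.toNat_of_nonneg (by omega)).symm⟩
    rw [orb_cast] at hk
    obtain ⟨j, hj⟩ := hk
    rw [Int.toNat_natCast]
    exact ⟨k, j, hj⟩
  · rintro ⟨hx, k, j, h⟩
    refine ⟨by omega, k, ?_⟩
    obtain ⟨n, rfl⟩ : ∃ n : ℕ, x = n := ⟨x.toNat, (Int.toNat_of_nonneg (by omega)).symm⟩
    rw [Int.toNat_natCast] at h
    rw [orb_cast]
    exact ⟨j, h⟩

theorem dn_nonneg {P : ℕ → Prop} {l : ℝ} (h : Dn P l) : 0 ≤ l := by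
  apply ge_of_tendsto h
  filter_upwards with N
  exact div_nonneg (cntn_nonneg _ _) (Nat.cast_nonneg _)

theorem Tn_two_pow (e n : ℕ) : Tn^[e] (2 ^ e * n) = n := by
  induction e with
  | zero => simp
  | succ e ih =>
    rw [Function.iterate_succ_apply]
    have : Tn (2 ^ (e + 1) * n) = 2 ^ e * n := by
      have h : 2 ^ (e + 1) * n = 2 * (2 ^ e * n) := by ring
      rw [h]; simp only [Tn]; rw [if_pos (by omega)]; omega
    rw [this, ih]

/-- comparison of the time bounds at `n` and at the scale `A` -/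
theorem O_win (x : ℝ) {θ : ℝ} (hθ : 0 < θ) {E D : ℝ} (hE : 0 ≤ E) (hD : 0 ≤ D) :
    ∃ A0 : ℝ, 0 < A0 ∧ ∀ A : ℝ, A0 ≤ A → 1 ≤ Real.log A ∧ ∀ L' : ℝ, Real.log A ≤ L' →
      L' ≤ Real.log A + E →
      L' / mu + x * sg * Real.sqrt L' + D ≤ Real.log A / mu + (x + θ) * sg * Real.sqrt (Real.log A) ∧
      Real.log A / mu + (x - θ) * sg * Real.sqrt (Real.log A) + D ≤ L' / mu + x * sg * Real.sqrt L' := by
  have hmu := mu_pos'
  have hsg := sg_pos
  set H := E / mu + |x| * sg * Real.sqrt E + D with hH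
  have hH0 : 0 ≤ H := by
    have := Real.sqrt_nonneg E
    have := abs_nonneg x
    positivity
  refine ⟨Real.exp (max 1 ((H / (θ * sg)) ^ 2)), Real.exp_pos _, ?_⟩
  intro A hA
  have hA0 : 0 < A := lt_of_lt_of_le (Real.exp_pos _) hA
  have hLA : max 1 ((H / (θ * sg)) ^ 2) ≤ Real.log A := by
    rw [Real.le_log_iff_exp_le hA0]; exact hA
  refine ⟨(le_max_left _ _).trans hLA, ?_⟩
  intro L' h1 h2
  have hL1 : 1 ≤ Real.log A := (le_max_left _ _).trans hLA
  have h3 : H / (θ * sg) ≤ Real.sqrt (Real.log A) := Real.le_sqrt_of_sq_le ((le_max_right _ _).trans hLA)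
  rw [div_le_iff₀ (by positivity)] at h3
  have h4 : |x * sg * (Real.sqrt L' - Real.sqrt (Real.log A))| ≤ |x| * sg * Real.sqrt E := by
    rw [abs_mul, abs_mul, abs_of_pos hsg]
    apply mul_le_mul_of_nonneg_left _ (by positivity)
    refine (sqrt_sub_le (by linarith) (by linarith)).trans ?_
    apply Real.sqrt_le_sqrt
    rw [abs_of_nonneg (by linarith)]
    linarith
  have h5 := abs_le.1 h4
  have h6 : L' / mu ≤ Real.log A / mu + E / mu := by
    rw [← add_div]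
    exact (div_le_div_iff_of_pos_right hmu).2 h2
  have h7 : Real.log A / mu ≤ L' / mu := (div_le_div_iff_of_pos_right hmu).2 h1
  have h8 : E / mu ≥ 0 := by positivity
  have e1 : x * sg * (Real.sqrt L' - Real.sqrt (Real.log A))
      = x * sg * Real.sqrt L' - x * sg * Real.sqrt (Real.log A) := by ring
  rw [e1] at h5
  constructor
  · have e2 : (x + θ) * sg * Real.sqrt (Real.log A)
        = x * sg * Real.sqrt (Real.log A) + Real.sqrt (Real.log A) * (θ * sg) := by ring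
    rw [e2]
    linarith [h5.2]
  · have e2 : (x - θ) * sg * Real.sqrt (Real.log A)
        = x * sg * Real.sqrt (Real.log A) - Real.sqrt (Real.log A) * (θ * sg) := by ring
    rw [e2]
    linarith [h5.1]

/-- the event: the trajectory of `n` meets the trajectory of `a` within the given time -/
def evT (a : ℕ) (x : ℝ) (n : ℕ) : Prop :=
  ∃ k : ℕ, (k : ℝ) ≤ Real.log n / mu + x * sg * Real.sqrt (Real.log n) ∧ ∃ j : ℕ, Tn^[k] n = Tn^[j] a

theorem O_log {A : ℝ} (hA : 0 < A) {e : ℕ} {x : ℤ} (h1 : A ≤ (x : ℝ)) (h2 : (x : ℝ) < 2 * A) :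
    Real.log A ≤ Real.log ((2 ^ e * x.toNat : ℕ) : ℝ) ∧
      Real.log ((2 ^ e * x.toNat : ℕ) : ℝ) ≤ Real.log A + (e + 1) * Real.log 2 := by
  have hx0 : 0 < (x : ℝ) := lt_of_lt_of_le hA h1
  have hx1 : 0 < x := by exact_mod_cast hx0
  have hc : ((x.toNat : ℕ) : ℝ) = (x : ℝ) := by
    have : ((x.toNat : ℕ) : ℤ) = x := Int.toNat_of_nonneg hx1.le
    exact_mod_cast congrArg (fun t : ℤ => (t : ℝ)) this
  have e1 : ((2 ^ e * x.toNat : ℕ) : ℝ) = 2 ^ e * (x : ℝ) := by push_cast; rw [hc]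
  rw [e1, Real.log_mul (by positivity) hx0.ne', Real.log_pow]
  have h3 : Real.log A ≤ Real.log x := Real.log_le_log hA h1
  have h4 : Real.log x ≤ Real.log 2 + Real.log A := by
    rw [← Real.log_mul (by norm_num) hA.ne']
    exact Real.log_le_log hx0 h2.le
  have h5 : 0 ≤ (e : ℝ) * Real.log 2 := by
    have := Real.log_pos (by norm_num : (1 : ℝ) < 2)
    positivity
  constructor
  · linarith
  · linarith

end Pool.Agent.H499R2.ND
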