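import Pool.Agent.H33.G.R_seed8.H499R2.CL.O2
import Pool.Agent.H33.G.R_seed8.H499R2.CL.J
import Pool.Agent.H33.G.R_seed8.H319R2.Orbit

/-! Project CL: transfer of the central limit theorem to the Collatz map `n/2`, `3n+1`. -/

set_option autoImplicit false

namespace Pool.Agent.H499R2.ND

open Pool.Agent.H320R2.PD Finset Filter Topology

open Pool.Agent.H319R2.Lln (mu)

/-- squeezing a property between the members of a continuous family -/
theorem dn_squeeze {P : ℝ → ℕ → Prop} {F : ℝ → ℝ} (hF : Continuous F) (hP : ∀ x, Dn (P x) (F x))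
    {Q : ℕ → Prop} {x : ℝ} (h : ∀ θ : ℝ, 0 < θ → ∀ η : ℝ, 0 < η → ∃ E : ℕ → Prop,
      (∀ᶠ N : ℕ in atTop, cnt E N ≤ η * N) ∧ ∀ n : ℕ, 1 ≤ n → ¬ E n →
        (P (x - θ) n → Q n) ∧ (Q n → P (x + θ) n)) : Dn Q (F x) := by
  unfold Dn
  rw [Metric.tendsto_atTop']
  intro ε hε
  obtain ⟨r, hr, hr'⟩ := Metric.continuousAt_iff.1 (hF.continuousAt (x := x)) (ε / 4) (by positivity : 0 < ε / 4)
  have h1 := hr' (x := x + r / 2) (by rw [Real.dist_eq, add_sub_cancel_left, abs_of_pos (by positivity)]; linarith)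
  have h2 := hr' (x := x - r / 2) (by
    rw [Real.dist_eq, sub_sub_cancel_left, abs_neg, abs_of_pos (by positivity)]; linarith)
  rw [Real.dist_eq] at h1 h2
  obtain ⟨E, hE, hE'⟩ := h (r / 2) (by positivity) (ε / 4) (by positivity)
  have h3 : ∀ᶠ N : ℕ in atTop, cnt (P (x + r / 2)) N / N < F (x + r / 2) + ε / 4 :=
    (hP (x + r / 2)).eventually (gt_mem_nhds (by linarith))
  have h4 : ∀ᶠ N : ℕ in atTop, F (x - r / 2) - ε / 4 < cnt (P (x - r / 2)) N / N :=
    (hP (x - r / 2)).eventually (lt_mem_nhds (by linarith))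
  obtain ⟨N0, hN0⟩ := eventually_atTop.1 (hE.and (h3.and (h4.and (eventually_gt_atTop 0))))
  refine ⟨N0, fun N hN => ?_⟩
  obtain ⟨e1, e2, e3, e4⟩ := hN0 N hN.le
  have hN' : (0 : ℝ) < N := by exact_mod_cast e4
  rw [div_lt_iff₀ hN'] at e2
  rw [lt_div_iff₀ hN'] at e3
  have u1 : cnt Q N ≤ cnt (P (x + r / 2)) N + cnt E N := cnt_or N fun n hn _ hq => by
    by_cases hEn : E n
    · exact Or.inr hEn
    · exact Or.inl ((hE' n hn hEn).2 hq)
  have u2 : cnt (P (x - r / 2)) N ≤ cnt Q N + cnt E N := cnt_or N fun n hn _ hq => by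
    by_cases hEn : E n
    · exact Or.inr hEn
    · exact Or.inl ((hE' n hn hEn).1 hq)
  have a1 := abs_lt.1 h1
  have a2 := abs_lt.1 h2
  rw [Real.dist_eq, abs_lt]
  constructor
  · rw [neg_lt_sub_iff_lt_add, ← sub_lt_iff_lt_add', lt_div_iff₀ hN']
    nlinarith
  · rw [sub_lt_iff_lt_add', div_lt_iff₀ hN']
    nlinarith

/-- the Collatz map -/
def CC (n : ℕ) : ℕ := if n % 2 = 0 then n / 2 else 3 * n + 1

/-- the number of odd terms among the first `i` of the shortcut trajectory -/
def on (i n : ℕ) : ℕ := Pool.Agent.H319R2.od i (n : ℤ)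

theorem T_cast (i n : ℕ) : Pool.Agent.H319R2.T^[i] (n : ℤ) = ((Tn^[i] n : ℕ) : ℤ) := by
  rw [← p_map, Td_iter_cast]

theorem on_even {i n : ℕ} (h : Tn^[i] n % 2 = 0) : on (i + 1) n = on i n := by
  unfold on
  apply Pool.Agent.H319R2.od_succ_even
  rw [T_cast]; omega

theorem on_odd {i n : ℕ} (h : Tn^[i] n % 2 = 1) : on (i + 1) n = on i n + 1 := by
  unfold on
  apply Pool.Agent.H319R2.od_succ_odd
  rw [T_cast]; omega

theorem on_zero (n : ℕ) : on 0 n = 0 := Pool.Agent.H319R2.od_zero _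

theorem Tn_even' {m : ℕ} (h : m % 2 = 0) : 2 * Tn m = m := by
  simp only [Tn]; rw [if_pos h]; omega

theorem Tn_odd' {m : ℕ} (h : m % 2 = 1) : 2 * Tn m = 3 * m + 1 := by
  simp only [Tn]; rw [if_neg (by omega)]; omega

theorem CC_even {m : ℕ} (h : m % 2 = 0) : 2 * CC m = m := by
  unfold CC; rw [if_pos h]; omega

theorem CC_odd {m : ℕ} (h : m % 2 = 1) : CC m = 3 * m + 1 := by
  unfold CC; rw [if_neg (by omega)]

/-- the shortcut trajectory is contained in the trajectory (after helper319) -/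
theorem accelN (n i : ℕ) : Tn^[i] n = CC^[i + on i n] n := by
  induction i with
  | zero => rw [on_zero]; rfl
  | succ i ih =>
    rcases Nat.mod_two_eq_zero_or_one (Tn^[i] n) with h | h
    · rw [on_even h]
      have e : i + 1 + on i n = (i + on i n) + 1 := by ring
      rw [e, Function.iterate_succ_apply', Function.iterate_succ_apply', ← ih]
      have a1 := CC_even h
      have a2 := Tn_even' h
      omega
    · rw [on_odd h]
      have e : i + 1 + (on i n + 1) = (i + on i n) + 1 + 1 := by ring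
      rw [e, Function.iterate_succ_apply', Function.iterate_succ_apply',
        Function.iterate_succ_apply', ← ih, CC_odd h]
      have a1 := CC_even (m := 3 * (Tn^[i] n) + 1) (by omega)
      have a2 := Tn_odd' h
      omega

theorem casesN (n k : ℕ) : ∃ i : ℕ, (CC^[k] n = Tn^[i] n ∧ k = i + on i n) ∨
    (Tn^[i] n % 2 = 1 ∧ CC^[k] n = 3 * Tn^[i] n + 1 ∧ k = i + on i n + 1) := by
  induction k with
  | zero => exact ⟨0, Or.inl ⟨rfl, by rw [on_zero]⟩⟩
  | succ k ih =>
    obtain ⟨i, ⟨h1, h2⟩ | ⟨h0, h1, h2⟩⟩ := ih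
    · rcases Nat.mod_two_eq_zero_or_one (Tn^[i] n) with h | h
      · refine ⟨i + 1, Or.inl ?_⟩
        rw [on_even h]
        refine ⟨?_, by omega⟩
        rw [Function.iterate_succ_apply', Function.iterate_succ_apply', h1]
        have a1 := CC_even h
        have a2 := Tn_even' h
        omega
      · refine ⟨i, Or.inr ⟨h, ?_, by omega⟩⟩
        rw [Function.iterate_succ_apply', h1, CC_odd h]
    · refine ⟨i + 1, Or.inl ?_⟩
      rw [on_odd h0]
      refine ⟨?_, by omega⟩
      rw [Function.iterate_succ_apply', Function.iterate_succ_apply', h1]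
      have a1 := CC_even (m := 3 * (Tn^[i] n) + 1) (by omega)
      have a2 := Tn_odd' h0
      omega

/-- meeting under `CC` implies meeting under the shortcut map, at most one step later -/
theorem meetC {n a k j : ℕ} (h : CC^[k] n = CC^[j] a) :
    ∃ i l : ℕ, Tn^[i] n = Tn^[l] a ∧ i + on i n ≤ k + 1 := by
  obtain ⟨i, ⟨h1, h2⟩ | ⟨h0, h1, h2⟩⟩ := casesN n k
  · obtain ⟨l, ⟨g1, _⟩ | ⟨g0, g1, _⟩⟩ := casesN a j
    · exact ⟨i, l, by omega, by omega⟩
    · refine ⟨i + 1, l + 1, ?_, ?_⟩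
      · rw [Function.iterate_succ_apply', Function.iterate_succ_apply']
        have a1 := Tn_odd' g0
        have a2 := Tn_even' (m := Tn^[i] n) (by omega)
        omega
      · rw [on_even (by omega)]; omega
  · obtain ⟨l, ⟨g1, _⟩ | ⟨g0, g1, _⟩⟩ := casesN a j
    · refine ⟨i + 1, l + 1, ?_, ?_⟩
      · rw [Function.iterate_succ_apply', Function.iterate_succ_apply']
        have a1 := Tn_odd' h0
        have a2 := Tn_even' (m := Tn^[l] a) (by omega)
        omega
      · rw [on_odd h0]; omega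
    · exact ⟨i, l, by omega, by omega⟩

theorem on_mono (n : ℕ) : Monotone (fun i => on i n) := by
  apply monotone_nat_of_le_succ
  intro i
  rcases Nat.mod_two_eq_zero_or_one (Tn^[i] n) with h | h
  · simp only [on_even h]; exact le_rfl
  · simp only [on_odd h]; omega

theorem iter_period {α : Type*} {f : α → α} {n : α} {i i' : ℕ} (hii : i < i') (h : f^[i] n = f^[i'] n) :
    ∀ s : ℕ, i ≤ s → ∃ r, r < i' ∧ f^[s] n = f^[r] n := by
  intro s
  induction s using Nat.strong_induction_on with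
  | _ s ih =>
    intro hs
    rcases lt_or_ge s i' with h1 | h1
    · exact ⟨s, h1, rfl⟩
    · obtain ⟨r, hr, hr'⟩ := ih (s - (i' - i)) (by omega) (by omega)
      refine ⟨r, hr, ?_⟩
      rw [← hr']
      have e1 : s = (s - i') + i' := by omega
      have e2 : s - (i' - i) = (s - i') + i := by omega
      rw [e2]
      conv_lhs => rw [e1]
      rw [Function.iterate_add_apply, Function.iterate_add_apply, h]

/-- the size of the trajectory at the first meeting with the one of `a` -/
theorem rigidN : ∃ B : ℝ, 0 < B ∧ ∀ a n t : ℕ, 1 ≤ n → (∃ j, Tn^[t] n = Tn^[j] a) →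
    (∀ i < t, ¬ ∃ j, Tn^[i] n = Tn^[j] a) →
    |Real.log ((Tn^[t] n : ℕ) : ℝ) - Real.log n + t * Real.log 2 - on t n * Real.log 3| ≤ B := by
  obtain ⟨B, hB, hB'⟩ := Pool.Agent.H319R2.rigid 0.951 Pool.Agent.H319R2.beta_lt (by norm_num)
  refine ⟨B, hB, ?_⟩
  intro a n t hn ht hmin
  have hn0 : (n : ℤ) ≠ 0 := by omega
  have hinj : Set.InjOn (fun i => Pool.Agent.H319R2.T^[i] (n : ℤ)) (Set.Iio t) := by
    have key : ∀ i i' : ℕ, i < i' → i' < t → Tn^[i] n ≠ Tn^[i'] n := by
      intro i i' hii hi' he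
      obtain ⟨r, hr, hr'⟩ := iter_period hii he t (by omega)
      apply hmin r (by omega)
      obtain ⟨j, hj⟩ := ht
      exact ⟨j, by rw [← hr', hj]⟩
    intro i hi i' hi' he
    simp only at he
    rw [T_cast, T_cast] at he
    have he' : Tn^[i] n = Tn^[i'] n := by exact_mod_cast he
    by_contra hne
    rcases lt_or_gt_of_ne hne with h | h
    · exact key i i' h (Set.mem_Iio.1 hi') he'
    · exact key i' i h (Set.mem_Iio.1 hi) he'.symm
  have h := hB' (n : ℤ) t hn0 hinj 1 le_rfl (by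
    intro j _
    rw [T_cast]
    have h1 := Tn_iter_pos hn j
    have h2 : (1 : ℝ) ≤ ((Tn^[j] n : ℕ) : ℝ) := by exact_mod_cast h1
    rw [Int.cast_natCast]
    exact h2.trans (le_abs_self _))
  rw [Real.one_rpow, mul_one, T_cast, Int.cast_natCast, Int.cast_natCast, Nat.abs_cast, Nat.abs_cast] at h
  exact h

/-- ratio of the time scales -/
noncomputable def kpp : ℝ := 1 + Real.log 2 / Real.log 3

/-- time bound for the Collatz map -/
noncomputable def tbC (x : ℝ) (n : ℕ) : ℝ :=
  3 / Real.log (4 / 3) * Real.log n + x * (sg * kpp) * Real.sqrt (Real.log n)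

def evC (a : ℕ) (x : ℝ) (n : ℕ) : Prop := ∃ k : ℕ, (k : ℝ) ≤ tbC x n ∧ ∃ j : ℕ, CC^[k] n = CC^[j] a

theorem log43 : Real.log (4 / 3) = 2 * mu := by unfold mu; ring

theorem tbC_eq (x : ℝ) (n : ℕ) : tbC x n
    = kpp * (Real.log n / mu + x * sg * Real.sqrt (Real.log n)) - Real.log n / Real.log 3 := by
  have hmu := mu_pos'
  have h3 := Real.log_pos (by norm_num : (1 : ℝ) < 3)
  have hk : kpp / mu - 1 / Real.log 3 = 3 / (2 * mu) := by
    unfold kpp
    have := Pool.Agent.H319R2.Lln.mu_eq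
    have e : Real.log 2 = mu + Real.log 3 / 2 := by linarith
    rw [e]
    field_simp
    ring
  unfold tbC
  rw [log43, ← hk]
  ring

theorem large_log {P : ℝ → Prop} (h : ∃ L0 : ℝ, ∀ L : ℝ, L0 ≤ L → P L) {η : ℝ} (hη : 0 < η) :
    ∃ E : ℕ → Prop, (∀ᶠ N : ℕ in atTop, cnt E N ≤ η * N) ∧ ∀ n : ℕ, 1 ≤ n → ¬ E n → P (Real.log n) := by
  obtain ⟨L0, hL0⟩ := h
  refine ⟨fun n => (n : ℝ) ≤ Real.exp L0, ?_, ?_⟩
  · have h1 : Tendsto (fun N : ℕ => η * (N : ℝ)) atTop atTop :=
      Tendsto.const_mul_atTop hη tendsto_natCast_atTop_atTop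
    filter_upwards [h1.eventually_ge_atTop (Real.exp L0)] with N hN
    exact (cnt_small (Real.exp_pos _).le N).trans hN
  · intro n hn hE
    apply hL0
    rw [Real.le_log_iff_exp_le (by exact_mod_cast hn)]
    exact (not_le.1 hE).le

/-- CENTRAL LIMIT THEOREM for the Collatz map, from the one for the shortcut map -/
theorem clt_C {a : ℕ} {δ : ℝ} (hclt : ∀ x : ℝ, Dn (evT a x) (δ * Phi x)) (x : ℝ) :
    Dn (evC a x) (δ * Phi x) := by
  have hmu := mu_pos'
  have hsg := sg_pos
  have h3 : 1 < Real.log 3 := by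
    rw [Real.lt_log_iff_exp_lt (by norm_num)]
    have := Real.exp_one_lt_d9
    linarith
  have h2 := Real.log_pos (by norm_num : (1 : ℝ) < 2)
  have hkap : 1 ≤ kpp := by
    unfold kpp
    have : 0 ≤ Real.log 2 / Real.log 3 := by positivity
    linarith
  refine dn_squeeze (P := evT a) (F := fun x => δ * Phi x) (Phi_continuous.const_mul δ) hclt ?_
  intro θ hθ η hη
  obtain ⟨B, hB, hB'⟩ := rigidN
  obtain ⟨Y, hY⟩ := Bg_small a (show 0 < η / 2 by positivity)
  set B1 : ℝ := B + Real.log (Y + 1) with hB1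
  have hY0 : 0 ≤ Real.log ((Y : ℝ) + 1) := Real.log_nonneg (by
    have : (0 : ℝ) ≤ Y := Nat.cast_nonneg Y
    linarith)
  obtain ⟨E, hE, hE'⟩ := large_log (P := fun L => B1 + 1 ≤ θ * sg * Real.sqrt L)
    ⟨((B1 + 1) / (θ * sg)) ^ 2, fun L hL => by
      have h4 : (B1 + 1) / (θ * sg) ≤ Real.sqrt L := Real.le_sqrt_of_sq_le hL
      rw [div_le_iff₀ (by positivity)] at h4
      linarith⟩ (show 0 < η / 2 by positivity)
  refine ⟨fun n => Bg a Y n ∨ E n, ?_, ?_⟩
  · filter_upwards [hY, hE] with N h4 h5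
    have h6 : cnt (fun n => Bg a Y n ∨ E n) N ≤ cnt (Bg a Y) N + cnt E N := cnt_or N fun n _ _ h => h
    linarith
  · intro n hn hnE
    rw [not_or] at hnE
    have hlarge := hE' n hn hnE.2
    have hlog0 : 0 ≤ Real.log n := Real.log_nonneg (by exact_mod_cast hn)
    -- the relation of the two times at the first meeting
    have hrel : ∀ t : ℕ, (∃ j, Tn^[t] n = Tn^[j] a) → (∀ i < t, ¬ ∃ j, Tn^[i] n = Tn^[j] a) →
        |((t + on t n : ℕ) : ℝ) - (kpp * t - Real.log n / Real.log 3)| ≤ B1 := by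
      intro t ht hmin
      have h4 := hB' a n t hn ht hmin
      have h5 : Tn^[t] n ≤ Y := by
        by_contra hcon
        exact hnE.1 ⟨t, ht, hmin, not_le.1 hcon⟩
      have h6 : 0 ≤ Real.log ((Tn^[t] n : ℕ) : ℝ) :=
        Real.log_nonneg (by exact_mod_cast Tn_iter_pos hn t)
      have h7 : Real.log ((Tn^[t] n : ℕ) : ℝ) ≤ Real.log (Y + 1) := by
        apply Real.log_le_log (by exact_mod_cast Tn_iter_pos hn t)
        have : ((Tn^[t] n : ℕ) : ℝ) ≤ Y := by exact_mod_cast h5
        linarith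
      have h8 : |((t + on t n : ℕ) : ℝ) - (kpp * t - Real.log n / Real.log 3)| * Real.log 3 ≤ B1 := by
        rw [← abs_of_pos (show 0 < Real.log 3 by linarith), ← abs_mul, abs_of_pos (show 0 < Real.log 3 by linarith)]
        have e : (((t + on t n : ℕ) : ℝ) - (kpp * t - Real.log n / Real.log 3)) * Real.log 3
            = -(Real.log ((Tn^[t] n : ℕ) : ℝ) - Real.log n + t * Real.log 2 - on t n * Real.log 3)
              + Real.log ((Tn^[t] n : ℕ) : ℝ) := by
          unfold kpp
          push_cast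
          field_simp
          ring
        rw [e]
        refine (abs_add_le _ _).trans ?_
        rw [abs_neg, abs_of_nonneg h6]
        linarith
      have h9 := abs_nonneg (((t + on t n : ℕ) : ℝ) - (kpp * t - Real.log n / Real.log 3))
      nlinarith
    constructor
    · rintro ⟨k, hk, hj⟩
      -- first meeting
      classical
      have hex : ∃ t, ∃ j, Tn^[t] n = Tn^[j] a := ⟨k, hj⟩
      set t := Nat.find hex with ht
      have ht1 : ∃ j, Tn^[t] n = Tn^[j] a := Nat.find_spec hex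
      have ht2 : ∀ i < t, ¬ ∃ j, Tn^[i] n = Tn^[j] a := fun i hi => Nat.find_min hex hi
      have htk : (t : ℝ) ≤ k := by exact_mod_cast Nat.find_min' hex hj
      have h4 := (abs_le.1 (hrel t ht1 ht2)).2
      refine ⟨t + on t n, ?_, ?_⟩
      · rw [tbC_eq]
        have h5 : (t : ℝ) ≤ Real.log n / mu + (x - θ) * sg * Real.sqrt (Real.log n) := htk.trans hk
        have h6 := mul_le_mul_of_nonneg_left h5 (show 0 ≤ kpp by linarith)
        have h7 : kpp * (Real.log n / mu + (x - θ) * sg * Real.sqrt (Real.log n))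
            = kpp * (Real.log n / mu + x * sg * Real.sqrt (Real.log n))
              - kpp * (θ * sg * Real.sqrt (Real.log n)) := by ring
        have h8 : B1 + 1 ≤ kpp * (θ * sg * Real.sqrt (Real.log n)) := by
          have h9 : 0 ≤ θ * sg * Real.sqrt (Real.log n) := by positivity
          nlinarith
        linarith
      · obtain ⟨j, hj⟩ := ht1
        refine ⟨j + on j a, ?_⟩
        rw [← accelN, ← accelN, hj]
    · rintro ⟨k, hk, j, hj⟩
      classical
      obtain ⟨i, l, hil, hik⟩ := meetC hj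
      have hex : ∃ t, ∃ j, Tn^[t] n = Tn^[j] a := ⟨i, l, hil⟩
      set t := Nat.find hex with ht
      have ht1 : ∃ j, Tn^[t] n = Tn^[j] a := Nat.find_spec hex
      have ht2 : ∀ i < t, ¬ ∃ j, Tn^[i] n = Tn^[j] a := fun i hi => Nat.find_min hex hi
      have hti : t ≤ i := Nat.find_min' hex ⟨l, hil⟩
      have h4 := (abs_le.1 (hrel t ht1 ht2)).1
      refine ⟨t, ?_, ht1⟩
      have h5 : t + on t n ≤ k + 1 := by
        have := on_mono n hti
        simp only at this
        omega
      have h6 : ((t + on t n : ℕ) : ℝ) ≤ k + 1 := by exact_mod_cast h5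
      rw [tbC_eq] at hk
      have h7 : kpp * t ≤ kpp * (Real.log n / mu + x * sg * Real.sqrt (Real.log n)) + (B1 + 1) := by
        linarith
      have h8 : kpp * t ≤ kpp * (Real.log n / mu + (x + θ) * sg * Real.sqrt (Real.log n)) := by
        have e : kpp * (Real.log n / mu + (x + θ) * sg * Real.sqrt (Real.log n))
            = kpp * (Real.log n / mu + x * sg * Real.sqrt (Real.log n))
              + kpp * (θ * sg * Real.sqrt (Real.log n)) := by ring
        rw [e]
        have h9 : 0 ≤ θ * sg * Real.sqrt (Real.log n) := by positivity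
        nlinarith
      exact le_of_mul_le_mul_left h8 (by linarith)

theorem CC_one (j : ℕ) : CC^[j] 1 = 1 ∨ CC^[j] 1 = 4 ∨ CC^[j] 1 = 2 := by
  induction j with
  | zero => left; rfl
  | succ j ih =>
    rw [Function.iterate_succ_apply']
    rcases ih with h | h | h <;> rw [h] <;> decide

/-- the total stopping time -/
theorem clt_one {δ : ℝ} (hclt : ∀ x : ℝ, Dn (evT 1 x) (δ * Phi x)) (x : ℝ) :
    Dn (fun n => ∃ k : ℕ, (k : ℝ) ≤ tbC x n ∧ CC^[k] n = 1) (δ * Phi x) := by
  have hsg := sg_pos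
  have h3 := Real.log_pos (by norm_num : (1 : ℝ) < 3)
  have h2 := Real.log_pos (by norm_num : (1 : ℝ) < 2)
  have hkap : 0 < kpp := by unfold kpp; positivity
  refine dn_squeeze (P := evC 1) (F := fun x => δ * Phi x) (Phi_continuous.const_mul δ)
    (fun x => clt_C hclt x) ?_
  intro θ hθ η hη
  obtain ⟨E, hE, hE'⟩ := large_log (P := fun L => 2 ≤ θ * (sg * kpp) * Real.sqrt L)
    ⟨(2 / (θ * (sg * kpp))) ^ 2, fun L hL => by
      have h4 : 2 / (θ * (sg * kpp)) ≤ Real.sqrt L := Real.le_sqrt_of_sq_le hL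
      rw [div_le_iff₀ (by positivity)] at h4
      linarith⟩ hη
  refine ⟨E, hE, fun n hn hnE => ?_⟩
  have h := hE' n hn hnE
  constructor
  · rintro ⟨k, hk, j, hj⟩
    have hb : tbC x n = tbC (x - θ) n + θ * (sg * kpp) * Real.sqrt (Real.log n) := by
      unfold tbC; ring
    rcases CC_one j with h1 | h1 | h1
    · exact ⟨k, by linarith, by rw [hj, h1]⟩
    · refine ⟨2 + k, ?_, ?_⟩
      · push_cast; linarith
      · rw [Function.iterate_add_apply, hj, h1]; decide
    · refine ⟨1 + k, ?_, ?_⟩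
      · push_cast; linarith
      · rw [Function.iterate_add_apply, hj, h1]; decide
  · rintro ⟨k, hk, hk1⟩
    refine ⟨k, ?_, 0, by rw [hk1]; rfl⟩
    have hb : tbC (x + θ) n = tbC x n + θ * (sg * kpp) * Real.sqrt (Real.log n) := by
      unfold tbC; ring
    linarith

end Pool.Agent.H499R2.ND
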